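import Pool.Agent.H75Z.DixMain

set_option autoImplicit false

set_option maxHeartbeats 400000

namespace Pool.Agent.H75Z.Dix

open Filter

theorem exists_perm (p q : ℕ → Prop) (hp : {n | p n}.Infinite) (hp' : {n | ¬ p n}.Infinite)
    (hq : {n | q n}.Infinite) (hq' : {n | ¬ q n}.Infinite) :
    ∃ σ : Equiv.Perm ℕ, ∀ n, q (σ n) ↔ p n := by
  classical
  have := hp.to_subtype
  have := hp'.to_subtype
  have := hq.to_subtype
  have := hq'.to_subtype
  obtain ⟨e⟩ : Nonempty ({n | p n} ≃ {n | q n}) := nonempty_equiv_of_countable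
  obtain ⟨f⟩ : Nonempty ({n | ¬ p n} ≃ {n | ¬ q n}) := nonempty_equiv_of_countable
  refine ⟨Equiv.subtypeCongr (p := p) (q := q) e f, fun n => ?_⟩
  by_cases h : p n
  · have h1 : Equiv.subtypeCongr (p := p) (q := q) e f n = (e ⟨n, h⟩).1 := by
      simp [Equiv.subtypeCongr, h]
    rw [h1]
    exact ⟨fun _ => h, fun _ => (e ⟨n, h⟩).2⟩
  · have h1 : Equiv.subtypeCongr (p := p) (q := q) e f n = (f ⟨n, h⟩).1 := by
      simp [Equiv.subtypeCongr, h]
    rw [h1]
    exact ⟨fun h2 => absurd h2 (f ⟨n, h⟩).2, fun h2 => absurd h2 h⟩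

theorem inf_of (p : ℕ → Prop) (r : ℕ) (h : ∀ k, p (4 * k + r)) : {n | p n}.Infinite := by
  refine Set.infinite_of_injective_forall_mem (f := fun k => 4 * k + r) ?_ h
  intro a b hab
  simp only at hab
  omega

theorem fin_ineq (a0 a1 a2 a3 c0 c1 c2 c3 : Prop) [Decidable a0] [Decidable a1] [Decidable a2]
    [Decidable a3] (e0 : a0 ↔ ¬ c0) (e1 : a1 ↔ ¬ c1) (e2 : a2 ↔ c2) (e3 : a3 ↔ c3)
    (d01 : c0 → c1 → False) (d02 : c0 → c2 → False) (d03 : c0 → c3 → False)
    (d12 : c1 → c2 → False) (d13 : c1 → c3 → False) (d23 : c2 → c3 → False) :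
    (1 : ℝ) ≤ (if a0 then 1 else 0) + (if a1 then 1 else 0) - (if a2 then 1 else 0) -
      (if a3 then 1 else 0) := by
  by_cases h0 : c0 <;> by_cases h1 : c1 <;> by_cases h2 : c2 <;> by_cases h3 : c3 <;>
    simp_all

theorem exists_group : ∃ (G : Type) (_ : Group G) (_ : Countable G) (K : Set G) (F : G → ℝ)
    (g : Fin 4 → G), (∀ k ∈ K, k⁻¹ ∈ K) ∧
    (∀ g : G, g ≠ 1 → ((fun k => k * g * k⁻¹) '' K).Infinite) ∧ (∀ t, ‖(F t : ℂ)‖ ≤ 1) ∧
    (∀ t, ∀ k ∈ K, F (t * k) = F t) ∧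
    ∀ s, 1 ≤ F (s * g 0) + F (s * g 1) - F (s * g 2) - F (s * g 3) := by
  classical
  have hq : {n : ℕ | n % 2 = 0}.Infinite := inf_of _ 0 fun k => by omega
  have hq' : {n : ℕ | ¬ n % 2 = 0}.Infinite := inf_of _ 1 fun k => by omega
  obtain ⟨σ0, h0⟩ := exists_perm (fun n => ¬ n % 4 = 0) (fun n => n % 2 = 0)
    (inf_of _ 1 fun k => by omega) (inf_of _ 0 fun k => by omega) hq hq'
  obtain ⟨σ1, h1⟩ := exists_perm (fun n => ¬ n % 4 = 1) (fun n => n % 2 = 0)
    (inf_of _ 0 fun k => by omega) (inf_of _ 1 fun k => by omega) hq hq'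
  obtain ⟨σ2, h2⟩ := exists_perm (fun n => n % 4 = 2) (fun n => n % 2 = 0)
    (inf_of _ 2 fun k => by omega) (inf_of _ 1 fun k => by omega) hq hq'
  obtain ⟨σ3, h3⟩ := exists_perm (fun n => n % 4 = 3) (fun n => n % 2 = 0)
    (inf_of _ 3 fun k => by omega) (inf_of _ 0 fun k => by omega) hq hq'
  let gen : Fin 4 ⊕ ℕ × ℕ → Equiv.Perm ℕ :=
    Sum.elim (fun i => (![σ0, σ1, σ2, σ3] i)⁻¹) (fun p => Equiv.swap p.1 p.2)
  let G : Subgroup (Equiv.Perm ℕ) := (FreeGroup.lift gen).range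
  have hgen : ∀ a, gen a ∈ G := fun a => ⟨FreeGroup.of a, by simp⟩
  have hc : Countable G := (FreeGroup.lift gen).rangeRestrict_surjective.countable
  let sw : ℕ → ℕ → G := fun a b => ⟨Equiv.swap a b, hgen (Sum.inr (a, b))⟩
  let P : G → (ℕ → Prop) → Prop := fun s p => ∀ᶠ n in (hyperfilter ℕ : Filter ℕ), p (s.1⁻¹ n)
  refine ⟨G, inferInstance, hc, {k | ∃ a b, k = sw a b},
    fun s => if P s (fun n => n % 2 = 0) then 1 else 0, fun i => ⟨_, hgen (Sum.inl i)⟩,
    ?_, ?_, ?_, ?_, ?_⟩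
  · rintro _ ⟨a, b, rfl⟩
    exact ⟨a, b, Subtype.ext (Equiv.swap_inv a b)⟩
  · intro g hg
    obtain ⟨p, hp⟩ : ∃ p, g.1 p ≠ p := by
      by_contra hc
      push Not at hc
      exact hg (Subtype.ext (Equiv.ext hc))
    have key : ∀ y : ℕ, ((sw (g.1 p) (p + 1 + y) * g * (sw (g.1 p) (p + 1 + y))⁻¹ : G).1 p) =
        p + 1 + y := by
      intro y
      have e1 : Equiv.swap (g.1 p) (p + 1 + y) p = p :=
        Equiv.swap_apply_of_ne_of_ne hp.symm (by omega)
      simp [sw, e1]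
    refine Set.infinite_of_injective_forall_mem
      (f := fun y : ℕ => sw (g.1 p) (p + 1 + y) * g * (sw (g.1 p) (p + 1 + y))⁻¹) ?_ ?_
    · intro a b hab
      have := key a
      simp only at hab
      rw [hab, key b] at this
      omega
    · intro y
      exact ⟨_, ⟨_, _, rfl⟩, rfl⟩
  · intro t
    beta_reduce
    split_ifs <;> simp
  · rintro t _ ⟨a, b, rfl⟩
    have : P (t * sw a b) (fun n => n % 2 = 0) ↔ P t (fun n => n % 2 = 0) := by
      apply Filter.eventually_congr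
      have hfin : ({t.1 a, t.1 b} : Set ℕ).Finite := Set.toFinite _
      filter_upwards [hfin.compl_mem_hyperfilter] with n hn
      simp only [Set.mem_compl_iff, Set.mem_insert_iff, Set.mem_singleton_iff, not_or] at hn
      have e1 : Equiv.swap a b (t.1⁻¹ n) = t.1⁻¹ n := by
        apply Equiv.swap_apply_of_ne_of_ne
        · intro h
          exact hn.1 (by rw [← h]; simp)
        · intro h
          exact hn.2 (by rw [← h]; simp)
      simp [sw] at e1 ⊢
      rw [e1]
    simp only [this]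
  · intro s
    have e0 : P (s * ⟨_, hgen (Sum.inl 0)⟩) (fun n => n % 2 = 0) ↔ ¬ P s (fun n => n % 4 = 0) := by
      simp only [P]
      rw [← Ultrafilter.eventually_not]
      apply Filter.eventually_congr
      exact Filter.Eventually.of_forall fun n => by simpa [gen] using h0 (s.1⁻¹ n)
    have e1 : P (s * ⟨_, hgen (Sum.inl 1)⟩) (fun n => n % 2 = 0) ↔ ¬ P s (fun n => n % 4 = 1) := by
      simp only [P]
      rw [← Ultrafilter.eventually_not]
      apply Filter.eventually_congr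
      exact Filter.Eventually.of_forall fun n => by simpa [gen] using h1 (s.1⁻¹ n)
    have e2 : P (s * ⟨_, hgen (Sum.inl 2)⟩) (fun n => n % 2 = 0) ↔ P s (fun n => n % 4 = 2) := by
      simp only [P]
      apply Filter.eventually_congr
      exact Filter.Eventually.of_forall fun n => by simpa [gen] using h2 (s.1⁻¹ n)
    have e3 : P (s * ⟨_, hgen (Sum.inl 3)⟩) (fun n => n % 2 = 0) ↔ P s (fun n => n % 4 = 3) := by
      simp only [P]
      apply Filter.eventually_congr
      exact Filter.Eventually.of_forall fun n => by simpa [gen] using h3 (s.1⁻¹ n)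
    have hd : ∀ i j : ℕ, P s (fun n => n % 4 = i) → P s (fun n => n % 4 = j) → i = j := by
      intro i j hi hj
      obtain ⟨n, hn1, hn2⟩ := (Filter.Eventually.and hi hj).exists
      rw [← hn1, ← hn2]
    beta_reduce
    exact fin_ineq _ _ _ _ _ _ _ _ e0 e1 e2 e3 (fun a b => absurd (hd 0 1 a b) (by omega))
      (fun a b => absurd (hd 0 2 a b) (by omega)) (fun a b => absurd (hd 0 3 a b) (by omega))
      (fun a b => absurd (hd 1 2 a b) (by omega)) (fun a b => absurd (hd 1 3 a b) (by omega))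
      (fun a b => absurd (hd 2 3 a b) (by omega))

end Pool.Agent.H75Z.Dix
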