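import Pool.Agent.H75Z.DixOp

set_option autoImplicit false

open scoped InnerProductSpace ComplexConjugate

namespace Pool.Agent.H75Z.Dix

variable {G : Type} [Group G]

/-- right translation -/
noncomputable def rho (g : G) : L2 G →L[ℂ] L2 G := U (Equiv.mulRight g)

/-- left translation -/
noncomputable def lam (g : G) : L2 G →L[ℂ] L2 G := U (Equiv.mulLeft g)

@[simp] theorem rho_apply (g : G) (ξ : L2 G) (t : G) : rho g ξ t = ξ (t * g) := by simp [rho]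

@[simp] theorem lam_apply (g : G) (ξ : L2 G) (t : G) : lam g ξ t = ξ (g * t) := by simp [lam]

theorem star_rho (g : G) : star (rho g) = rho g⁻¹ := by
  unfold rho
  rw [star_U, Equiv.mulRight_symm]

theorem rho_lam (g h : G) : rho g * lam h = lam h * rho g := by
  ext ξ t
  simp [mul_assoc]

theorem mem_comm_rho (K : Set G) (hK : ∀ k ∈ K, k⁻¹ ∈ K) (z : L2 G →L[ℂ] L2 G) :
    z ∈ comm (rho '' K) ↔ ∀ k ∈ K, rho k * z = z * rho k := by
  rw [mem_comm]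
  constructor
  · intro h k hk
    exact (h _ ⟨k, hk, rfl⟩).1
  · rintro h _ ⟨k, hk, rfl⟩
    rw [star_rho]
    exact ⟨h k hk, h _ (hK k hk)⟩

theorem lam_δ (g : G) : lam g⁻¹ (δ 1) = δ g := by
  ext t
  rw [lam_apply, δ_apply, δ_apply]
  congr 1
  rw [inv_mul_eq_one]
  exact propext eq_comm

theorem rho_δ (g : G) : rho g⁻¹ (δ 1) = δ g := by
  ext t
  rw [rho_apply, δ_apply, δ_apply]
  congr 1
  rw [mul_inv_eq_one]

theorem irreducible (K : Set G)
    (hicc : ∀ g : G, g ≠ 1 → ((fun k => k * g * k⁻¹) '' K).Infinite) (z : L2 G →L[ℂ] L2 G)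
    (h1 : ∀ k ∈ K, rho k⁻¹ * z = z * rho k⁻¹) (h2 : ∀ g, z * lam g = lam g * z) :
    ∃ c : ℂ, z = c • (1 : L2 G →L[ℂ] L2 G) := by
  have h3 : ∀ k ∈ K, ∀ t, z (δ 1) (k * t * k⁻¹) = z (δ 1) t := by
    intro k hk t
    have h4 : lam k (rho k⁻¹ (δ 1)) = δ 1 := by
      ext s
      rw [lam_apply, rho_apply, δ_apply, δ_apply]
      congr 1
      rw [mul_inv_eq_one, mul_eq_left]
    have h5 : lam k (rho k⁻¹ (z (δ 1))) = z (δ 1) := by
      have e1 : rho k⁻¹ (z (δ 1)) = z (rho k⁻¹ (δ 1)) := DFunLike.congr_fun (h1 k hk) (δ 1)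
      have e2 : z (lam k (rho k⁻¹ (δ 1))) = lam k (z (rho k⁻¹ (δ 1))) :=
        DFunLike.congr_fun (h2 k) _
      rw [e1, ← e2, h4]
    have := congrArg (fun ξ : L2 G => ξ t) h5
    simpa using this
  have h4 : ∀ t, t ≠ 1 → z (δ 1) t = 0 := by
    intro t ht
    refine eq_zero_of_infinite _ t ((hicc t ht).mono ?_)
    rintro _ ⟨k, hk, rfl⟩
    exact h3 k hk t
  have h5 : z (δ 1) = z (δ 1) 1 • δ 1 := by
    ext t
    by_cases ht : t = 1
    · subst ht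
      simp [δ_apply]
    · simp [δ_apply, ht, h4 t ht]
  refine ⟨z (δ 1) 1, ext_δ fun g => ?_⟩
  have e2 : z (lam g⁻¹ (δ 1)) = lam g⁻¹ (z (δ 1)) := DFunLike.congr_fun (h2 g⁻¹) _
  rw [← lam_δ g, e2]
  conv_lhs => rw [h5]
  simp

theorem diag (F : G → ℝ) (hF : ∀ t, ‖(F t : ℂ)‖ ≤ 1) (u : L2 G →L[ℂ] L2 G)
    (hu : ∀ g, rho g * star u = star u * rho g) (g : G) :
    HasSum (fun s => F (s * g) * ‖(star u) (δ 1) s‖ ^ 2)
      (⟪δ g, (u * wop (fun t => (F t : ℂ)) hF (Equiv.refl G) * star u) (δ g)⟫_ℂ).re := by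
  set η := (star u) (δ 1) with hη
  have h1 : (star u) (δ g) = rho g⁻¹ η := by
    rw [← rho_δ g]
    exact (DFunLike.congr_fun (hu g⁻¹) _).symm
  have h2 : ⟪δ g, (u * wop (fun t => (F t : ℂ)) hF (Equiv.refl G) * star u) (δ g)⟫_ℂ =
      ⟪rho g⁻¹ η, wop (fun t => (F t : ℂ)) hF (Equiv.refl G) (rho g⁻¹ η)⟫_ℂ := by
    rw [ContinuousLinearMap.mul_apply, ContinuousLinearMap.mul_apply,
      ← ContinuousLinearMap.adjoint_inner_left, ← ContinuousLinearMap.star_eq_adjoint, h1]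
  rw [h2]
  have h3 := Complex.hasSum_re (lp.hasSum_inner (𝕜 := ℂ) (rho g⁻¹ η)
    (wop (fun t => (F t : ℂ)) hF (Equiv.refl G) (rho g⁻¹ η)))
  rw [← (Equiv.mulRight g).hasSum_iff] at h3
  convert h3 using 2 with s
  simp only [Function.comp_apply, Equiv.coe_mulRight, rho_apply, wop_apply, Equiv.refl_apply,
    mul_inv_cancel_right, RCLike.inner_apply]
  rw [mul_assoc, Complex.mul_conj, Complex.normSq_eq_norm_sq]
  norm_cast

theorem convex_diag {H : Type} [NormedAddCommGroup H] [InnerProductSpace ℂ H] [CompleteSpace H]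
    (v : Fin 4 → H) : Convex ℝ {y : H →L[ℂ] H | 1 ≤ (⟪v 0, y (v 0)⟫_ℂ).re + (⟪v 1, y (v 1)⟫_ℂ).re -
      (⟪v 2, y (v 2)⟫_ℂ).re - (⟪v 3, y (v 3)⟫_ℂ).re} := by
  intro y1 hy1 y2 hy2 a b ha hb hab
  have h1 : ∀ i, (⟪v i, (a • y1 + b • y2) (v i)⟫_ℂ).re =
      a * (⟪v i, y1 (v i)⟫_ℂ).re + b * (⟪v i, y2 (v i)⟫_ℂ).re := by
    intro i
    have e : (a • y1 + b • y2) (v i) = (a : ℂ) • y1 (v i) + (b : ℂ) • y2 (v i) := by
      simp
    rw [e, inner_add_right, inner_smul_right, inner_smul_right]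
    simp
  simp only [Set.mem_setOf_eq] at hy1 hy2 ⊢
  rw [h1, h1, h1, h1]
  nlinarith [mul_le_mul_of_nonneg_left hy1 ha, mul_le_mul_of_nonneg_left hy2 hb]

theorem counter [Countable G] (K : Set G) (hK : ∀ k ∈ K, k⁻¹ ∈ K)
    (hicc : ∀ g : G, g ≠ 1 → ((fun k => k * g * k⁻¹) '' K).Infinite)
    (F : G → ℝ) (hF : ∀ t, ‖(F t : ℂ)‖ ≤ 1) (hFK : ∀ t, ∀ k ∈ K, F (t * k) = F t)
    (g : Fin 4 → G) (hg : ∀ s, 1 ≤ F (s * g 0) + F (s * g 1) - F (s * g 2) - F (s * g 3)) :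
    ¬ (∀ (H : Type) [NormedAddCommGroup H] [InnerProductSpace ℂ H] [CompleteSpace H]
      [TopologicalSpace.SeparableSpace H] (N M : VonNeumannAlgebra H),
      (∀ a ∈ N, a ∈ M) →
      (∀ z ∈ M, (∀ y ∈ M, z * y = y * z) → ∃ c : ℂ, z = c • (1 : H →L[ℂ] H)) →
      (∀ z ∈ N, (∀ y ∈ N, z * y = y * z) → ∃ c : ℂ, z = c • (1 : H →L[ℂ] H)) →
      (∀ z ∈ M, (∀ y ∈ N, z * y = y * z) → ∃ c : ℂ, z = c • (1 : H →L[ℂ] H)) →
      ∀ x ∈ M, ∃ c : ℂ, ∀ (n : ℕ) (ξ η : Fin n → H) (ε : ℝ), 0 < ε →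
        ∃ y ∈ convexHull ℝ
            {T : H →L[ℂ] H | ∃ u ∈ unitary (H →L[ℂ] H), u ∈ N ∧ T = u * x * star u},
          ∀ i : Fin n, ‖⟪η i, (y - c • (1 : H →L[ℂ] H)) (ξ i)⟫_ℂ‖ < ε) := by
  intro h
  have := separable (G := G)
  have hN : ∀ z, z ∈ comm (rho '' (Set.univ : Set G)) ↔ ∀ k, rho k * z = z * rho k := by
    intro z
    rw [mem_comm_rho Set.univ (fun _ _ => Set.mem_univ _)]
    simp
  have hM := mem_comm_rho K hK
  have hNM : ∀ a ∈ comm (rho '' (Set.univ : Set G)), a ∈ comm (rho '' K) := by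
    intro a ha
    rw [hM]
    exact fun k _ => (hN a).1 ha k
  have hirr : ∀ z ∈ comm (rho '' K), (∀ y ∈ comm (rho '' (Set.univ : Set G)), z * y = y * z) →
      ∃ c : ℂ, z = c • (1 : L2 G →L[ℂ] L2 G) := by
    intro z hz hz'
    refine irreducible K hicc z (fun k hk => (hM z).1 hz _ (hK k hk)) fun g => hz' _ ?_
    rw [hN]
    exact fun k => rho_lam k g
  let x := wop (fun t => (F t : ℂ)) hF (Equiv.refl G)
  have hx : x ∈ comm (rho '' K) := by
    rw [hM]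
    intro k hk
    ext ξ t
    simp [x, hFK t k hk]
  obtain ⟨c, hc⟩ := h (L2 G) (comm (rho '' Set.univ)) (comm (rho '' K)) hNM
    (fun z hz hz' => hirr z hz fun y hy => hz' y (hNM y hy))
    (fun z hz hz' => hirr z (hNM z hz) hz') hirr x hx
  obtain ⟨y, hy, hy'⟩ := hc 4 (fun i => δ (g i)) (fun i => δ (g i)) (1 / 4) (by norm_num)
  let d : (L2 G →L[ℂ] L2 G) → Fin 4 → ℝ := fun y i => (⟪δ (g i), y (δ (g i))⟫_ℂ).re
  have hd : 1 ≤ d y 0 + d y 1 - d y 2 - d y 3 := by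
    refine convexHull_min (t := {y | 1 ≤ d y 0 + d y 1 - d y 2 - d y 3}) ?_ ?_ hy
    · rintro _ ⟨u, hu, huN, rfl⟩
      have hsu : ∀ g, rho g * star u = star u * rho g := (hN _).1 (star_mem huN)
      have h1 := hasSum_norm_sq ((star u) (δ 1))
      have h2 : ‖(star u) (δ (1 : G))‖ = 1 := by
        have := (ContinuousLinearMap.norm_map_of_mem_unitary (Unitary.star_mem hu) (δ (1 : G)))
        rw [this, norm_δ]
      rw [h2, one_pow] at h1
      have h3 := (((diag F hF u hsu (g 0)).add (diag F hF u hsu (g 1))).sub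
        (diag F hF u hsu (g 2))).sub (diag F hF u hsu (g 3))
      refine hasSum_le (fun s => ?_) h1 h3
      have h4 := hg s
      have h5 : 0 ≤ ‖(star u) (δ 1) s‖ ^ 2 := by positivity
      nlinarith
    · exact convex_diag (fun i => δ (g i))
  have h2 : ∀ i, |d y i - c.re| < 1 / 4 := by
    intro i
    refine lt_of_le_of_lt ?_ (hy' i)
    refine le_trans (le_of_eq ?_) (Complex.abs_re_le_norm _)
    congr 1
    simp only [d, ContinuousLinearMap.sub_apply, ContinuousLinearMap.smul_apply,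
      ContinuousLinearMap.one_apply, inner_sub_right, inner_smul_right, Complex.sub_re,
      inner_self_eq_norm_sq_to_K, norm_δ]
    simp
  have h20 := abs_lt.1 (h2 0)
  have h21 := abs_lt.1 (h2 1)
  have h22 := abs_lt.1 (h2 2)
  have h23 := abs_lt.1 (h2 3)
  linarith

end Pool.Agent.H75Z.Dix
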