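import Mathlib

set_option autoImplicit false

open scoped InnerProductSpace ComplexConjugate

namespace Pool.Agent.H75Z.Dix

/-- square summable functions -/
noncomputable abbrev L2 (G : Type) := lp (fun _ : G => ℂ) 2

variable {G : Type}

theorem two_real : (2 : ENNReal).toReal = 2 := by norm_num

theorem summable_sq (ξ : L2 G) : Summable fun t => ‖ξ t‖ ^ (2 : ENNReal).toReal :=
  (lp.memℓp ξ).summable (by norm_num)

theorem wop_le (φ : G → ℂ) (hφ : ∀ t, ‖φ t‖ ≤ 1) (e : G ≃ G) (ξ : L2 G) (t : G) :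
    ‖φ t * ξ (e t)‖ ^ (2 : ENNReal).toReal ≤ ‖ξ (e t)‖ ^ (2 : ENNReal).toReal := by
  apply Real.rpow_le_rpow (norm_nonneg _) _ (by norm_num)
  rw [norm_mul]
  exact mul_le_of_le_one_left (norm_nonneg _) (hφ t)

theorem wop_summable (φ : G → ℂ) (hφ : ∀ t, ‖φ t‖ ≤ 1) (e : G ≃ G) (ξ : L2 G) :
    Summable fun t => ‖φ t * ξ (e t)‖ ^ (2 : ENNReal).toReal :=
  Summable.of_nonneg_of_le (fun _ => Real.rpow_nonneg (norm_nonneg _) _) (wop_le φ hφ e ξ)
    ((e.summable_iff (f := fun t => ‖ξ t‖ ^ (2 : ENNReal).toReal)).2 (summable_sq ξ))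

/-- weighted composition operator, as a linear map -/
noncomputable def wopL (φ : G → ℂ) (hφ : ∀ t, ‖φ t‖ ≤ 1) (e : G ≃ G) : L2 G →ₗ[ℂ] L2 G where
  toFun ξ := ⟨fun t => φ t * ξ (e t), memℓp_gen (wop_summable φ hφ e ξ)⟩
  map_add' ξ η := by
    ext t
    simp [mul_add]
  map_smul' c ξ := by
    ext t
    simp
    ring

/-- weighted composition operator -/
noncomputable def wop (φ : G → ℂ) (hφ : ∀ t, ‖φ t‖ ≤ 1) (e : G ≃ G) : L2 G →L[ℂ] L2 G :=
  (wopL φ hφ e).mkContinuous 1 (by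
    intro ξ
    rw [one_mul]
    apply lp.norm_le_of_tsum_le (by norm_num) (norm_nonneg _)
    rw [lp.norm_rpow_eq_tsum (by norm_num) ξ,
      ← e.tsum_eq (fun t => ‖ξ t‖ ^ (2 : ENNReal).toReal)]
    exact (wop_summable φ hφ e ξ).tsum_le_tsum (wop_le φ hφ e ξ)
      ((e.summable_iff (f := fun t => ‖ξ t‖ ^ (2 : ENNReal).toReal)).2 (summable_sq ξ)))

@[simp] theorem wop_apply (φ : G → ℂ) (hφ : ∀ t, ‖φ t‖ ≤ 1) (e : G ≃ G) (ξ : L2 G) (t : G) :
    wop φ hφ e ξ t = φ t * ξ (e t) := rfl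

/-- composition operator -/
noncomputable def U (e : G ≃ G) : L2 G →L[ℂ] L2 G := wop (fun _ => 1) (fun _ => by simp) e

@[simp] theorem U_apply (e : G ≃ G) (ξ : L2 G) (t : G) : U e ξ t = ξ (e t) := by
  simp [U]

theorem star_U (e : G ≃ G) : star (U e) = U e.symm := by
  rw [ContinuousLinearMap.star_eq_adjoint, eq_comm, ContinuousLinearMap.eq_adjoint_iff]
  intro ξ η
  rw [lp.inner_eq_tsum, lp.inner_eq_tsum, ← e.tsum_eq]
  simp

/-- the commutant of a set of operators -/
noncomputable def comm {H : Type} [NormedAddCommGroup H] [InnerProductSpace ℂ H] [CompleteSpace H]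
    (S : Set (H →L[ℂ] H)) : VonNeumannAlgebra H where
  toStarSubalgebra := StarSubalgebra.centralizer ℂ S
  centralizer_centralizer' := by
    have : (StarSubalgebra.centralizer ℂ S).carrier = (S ∪ star S).centralizer :=
      StarSubalgebra.coe_centralizer ℂ S
    rw [this]
    exact Set.centralizer_centralizer_centralizer _

theorem mem_comm {H : Type} [NormedAddCommGroup H] [InnerProductSpace ℂ H] [CompleteSpace H]
    (S : Set (H →L[ℂ] H)) (z : H →L[ℂ] H) :
    z ∈ comm S ↔ ∀ g ∈ S, g * z = z * g ∧ star g * z = z * star g :=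
  StarSubalgebra.mem_centralizer_iff ℂ

open Classical in
/-- the point masses -/
noncomputable def δ (g : G) : L2 G := lp.single 2 g (1 : ℂ)

open Classical in
theorem δ_apply (g t : G) : δ g t = if t = g then 1 else 0 := by
  unfold δ
  rw [lp.single_apply, Pi.single_apply]

theorem norm_δ (g : G) : ‖δ g‖ = 1 := by
  classical
  unfold δ
  convert lp.norm_single (E := fun _ : G => ℂ) (p := 2) (by norm_num) g (1 : ℂ)
  simp

theorem hasSum_δ (ξ : L2 G) : HasSum (fun t => ξ t • δ t) ξ := by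
  classical
  have := lp.hasSum_single (by norm_num) ξ
  convert this using 2 with t
  unfold δ
  rw [← lp.single_smul]
  simp

theorem ext_δ {S T : L2 G →L[ℂ] L2 G} (h : ∀ g, S (δ g) = T (δ g)) : S = T := by
  ext1 ξ
  have h1 := (hasSum_δ ξ).mapL S
  have h2 := (hasSum_δ ξ).mapL T
  simp only [map_smul, h] at h1 h2
  exact h1.unique h2

theorem separable [Countable G] : TopologicalSpace.SeparableSpace (L2 G) := by
  rw [← TopologicalSpace.isSeparable_univ_iff]
  have h1 : TopologicalSpace.IsSeparable (Set.range (δ : G → L2 G)) :=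
    (Set.countable_range _).isSeparable
  refine (h1.span (R := ℂ)).closure.mono fun ξ _ => ?_
  refine mem_closure_of_tendsto (hasSum_δ ξ) (Filter.Eventually.of_forall fun s => ?_)
  exact Submodule.sum_mem _ fun t _ => Submodule.smul_mem _ _ (Submodule.subset_span ⟨t, rfl⟩)

theorem eq_zero_of_infinite (ξ : L2 G) (t : G) (h : {s | ξ s = ξ t}.Infinite) : ξ t = 0 := by
  by_contra h0
  have h1 := (summable_sq ξ).tendsto_cofinite_zero
  have h2 : 0 < ‖ξ t‖ ^ (2 : ENNReal).toReal := Real.rpow_pos_of_pos (norm_pos_iff.2 h0) _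
  have h3 := h1.eventually (gt_mem_nhds h2)
  rw [Filter.eventually_cofinite] at h3
  refine h (h3.subset fun s hs => ?_)
  simp only [Set.mem_setOf_eq] at hs ⊢
  rw [hs]
  exact lt_irrefl _

theorem hasSum_norm_sq (ξ : L2 G) : HasSum (fun t => ‖ξ t‖ ^ 2) (‖ξ‖ ^ 2) := by
  have := lp.hasSum_norm (p := 2) (by norm_num) ξ
  simpa using this

end Pool.Agent.H75Z.Dix
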