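import Mathlib

set_option autoImplicit false

open Set Cardinal

namespace Pool.Agent.H75Z.Lots

universe u

/-- strictly increasing maps which preserve suprema and infima of nonempty sets -/
structure Emb {A B : Type*} [LinearOrder A] [LinearOrder B] (f : A → B) : Prop where
  mono : StrictMono f
  lub : ∀ (s : Set A) (a : A), s.Nonempty → IsLUB s a → IsLUB (f '' s) (f a)
  glb : ∀ (s : Set A) (a : A), s.Nonempty → IsGLB s a → IsGLB (f '' s) (f a)

theorem Emb.comp {A B C : Type*} [LinearOrder A] [LinearOrder B] [LinearOrder C]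
    {f : A → B} {g : B → C} (hg : Emb g) (hf : Emb f) : Emb (g ∘ f) where
  mono := hg.mono.comp hf.mono
  lub s a hs ha := by
    rw [image_comp]
    exact hg.lub _ _ (hs.image f) (hf.lub s a hs ha)
  glb s a hs ha := by
    rw [image_comp]
    exact hg.glb _ _ (hs.image f) (hf.glb s a hs ha)

theorem emb_of_continuous {A B : Type*} [LinearOrder A] [LinearOrder B] {f : A → B}
    (hi : Function.Injective f) (hm : Monotone f)
    (hc : @Continuous A B (Preorder.topology A) (Preorder.topology B) f) : Emb f := by
  letI : TopologicalSpace A := Preorder.topology A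
  letI : TopologicalSpace B := Preorder.topology B
  have : OrderTopology A := ⟨rfl⟩
  have : OrderTopology B := ⟨rfl⟩
  refine ⟨hm.strictMono_of_injective hi, fun s a hs ha => ?_, fun s a hs ha => ?_⟩
  · exact ha.isLUB_of_tendsto (hm.monotoneOn s) hs (hc.continuousWithinAt)
  · exact ha.isGLB_of_tendsto (hm.monotoneOn s) hs (hc.continuousWithinAt)

theorem emb_inl (A B : Type*) [LinearOrder A] [LinearOrder B] :
    Emb (fun a : A => (toLex (Sum.inl a) : A ⊕ₗ B)) where
  mono := fun a b h => by simpa using h
  lub s a hs ha := by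
    constructor
    · rintro _ ⟨x, hx, rfl⟩
      simpa using ha.1 hx
    · intro y hy
      induction y using Lex.rec with
      | h y =>
        cases y with
        | inl y =>
          have : y ∈ upperBounds s := fun x hx => by simpa using hy ⟨x, hx, rfl⟩
          simpa using ha.2 this
        | inr y => exact Sum.Lex.inl_le_inr _ _
  glb s a hs ha := by
    constructor
    · rintro _ ⟨x, hx, rfl⟩
      simpa using ha.1 hx
    · intro y hy
      induction y using Lex.rec with
      | h y =>
        cases y with
        | inl y =>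
          have : y ∈ lowerBounds s := fun x hx => by simpa using hy ⟨x, hx, rfl⟩
          simpa using ha.2 this
        | inr y =>
          obtain ⟨x, hx⟩ := hs
          exact absurd (hy ⟨x, hx, rfl⟩) Sum.Lex.not_inr_le_inl

/-- a type ordered like the first uncountable ordinal -/
structure IsOmegaOne (W : Type u) [LinearOrder W] : Prop where
  wf : WellFoundedLT W
  unc : Uncountable W
  cnt : ∀ a : W, (Iic a).Countable
  card : #W = ℵ₁

theorem exists_omegaOne : ∃ (W : Type u) (_ : LinearOrder W), IsOmegaOne W := by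
  refine ⟨(ℵ₁ : Cardinal.{u}).ord.ToType, inferInstance, inferInstance, ?_, ?_, ?_⟩
  · rw [← aleph1_le_mk_iff]; simp
  · intro a
    rw [← Iio_insert]
    refine Countable.insert a ?_
    rw [countable_iff_lt_aleph_one]
    exact mk_Iio_toType_ord_lt a
  · simp

theorem IsOmegaOne.bdd {W : Type u} [LinearOrder W] (h : IsOmegaOne W) {s : Set W}
    (hs : s.Countable) : ∃ b, ∀ a ∈ s, a < b := by
  have h1 : (⋃ a ∈ s, Iic a).Countable := hs.biUnion fun a _ => h.cnt a
  by_contra hc
  push Not at hc
  have : (⋃ a ∈ s, Iic a) = Set.univ := by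
    rw [eq_univ_iff_forall]
    intro b
    obtain ⟨a, ha, hb⟩ := hc b
    exact mem_biUnion ha hb
  rw [this] at h1
  have := h.unc
  exact not_countable_univ h1

theorem IsOmegaOne.gt {W : Type u} [LinearOrder W] (h : IsOmegaOne W) (a : W) : ∃ b, a < b := by
  obtain ⟨b, hb⟩ := h.bdd (countable_singleton a)
  exact ⟨b, hb a rfl⟩

theorem IsOmegaOne.nonempty {W : Type u} [LinearOrder W] (h : IsOmegaOne W) : Nonempty W := by
  have := h.unc
  infer_instance

theorem IsOmegaOne.exists_lub {W : Type u} [LinearOrder W] (h : IsOmegaOne W) {s : Set W}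
    (hs : s.Countable) : ∃ b, IsLUB s b := by
  have := h.wf
  obtain ⟨b, hb⟩ := h.bdd hs
  have hne : (upperBounds s).Nonempty := ⟨b, fun a ha => (hb a ha).le⟩
  exact ⟨wellFounded_lt.min _ hne, wellFounded_lt.min_mem _ hne,
    fun c hc => not_lt.1 (wellFounded_lt.not_lt_min _ hc)⟩

theorem IsOmegaOne.cof_ne {W : Type u} [LinearOrder W] (h : IsOmegaOne W) :
    Order.cof W ≠ ℵ₀ := by
  intro hc
  obtain ⟨s, hs, hs'⟩ := Order.exists_cof_eq (α := W)
  have : s.Countable := by
    rw [← le_aleph0_iff_set_countable, hs', hc]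
  obtain ⟨b, hb⟩ := h.bdd this
  obtain ⟨c, hc, hbc⟩ := hs b
  exact absurd (hb c hc) (not_lt.2 hbc)

end Pool.Agent.H75Z.Lots
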