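import Pool.Agent.H75Z.LotsSmall

set_option autoImplicit false

open Set Cardinal
open scoped NNReal

namespace Pool.Agent.H75Z.Lots

universe u

section line

variable {J : Type u} [LinearOrder J]

theorem line_lub [WellFoundedLT J] (s : Set (J ×ₗ ℝ≥0)) (b : J ×ₗ ℝ≥0)
    (hb : b ∈ upperBounds s) : ∃ a, IsLUB s a := by
  let T : Set J := {j | ∃ r : ℝ≥0, toLex (j, r) ∈ upperBounds s}
  have hT : T.Nonempty := ⟨(ofLex b).1, (ofLex b).2, hb⟩
  obtain ⟨r1, hr1⟩ := wellFounded_lt.min_mem T hT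
  set j0 := wellFounded_lt.min T hT with hj0
  let R : Set ℝ≥0 := {r | toLex (j0, r) ∈ s}
  have hR : BddAbove R := by
    refine ⟨r1, fun r hr => ?_⟩
    have := Prod.Lex.toLex_le_toLex.1 (hr1 hr)
    simpa using this
  refine ⟨toLex (j0, sSup R), ?_, ?_⟩
  · intro x hx
    induction x using Lex.rec with
    | h x =>
      obtain ⟨j, r⟩ := x
      rcases Prod.Lex.toLex_le_toLex.1 (hr1 hx) with h1 | ⟨h1, -⟩
      · exact Prod.Lex.toLex_le_toLex.2 (Or.inl h1)
      · simp only at h1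
        subst h1
        exact Prod.Lex.toLex_le_toLex.2 (Or.inr ⟨rfl, le_csSup hR hx⟩)
  · intro x hx
    induction x using Lex.rec with
    | h x =>
      obtain ⟨j, r⟩ := x
      have h1 : j0 ≤ j := not_lt.1 (wellFounded_lt.not_lt_min T (show j ∈ T from ⟨r, hx⟩))
      rcases h1.lt_or_eq with h2 | h2
      · exact Prod.Lex.toLex_le_toLex.2 (Or.inl h2)
      · subst h2
        refine Prod.Lex.toLex_le_toLex.2 (Or.inr ⟨rfl, csSup_le' fun r' hr' => ?_⟩)
        have := Prod.Lex.toLex_le_toLex.1 (hx hr')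
        simpa using this

theorem line_glb (x : J ×ₗ ℝ≥0) : IsGLB (Ioi x) x := by
  induction x using Lex.rec with
  | h x =>
    obtain ⟨j, r⟩ := x
    constructor
    · intro y hy
      exact le_of_lt hy
    · intro y hy
      by_contra hc
      push Not at hc
      induction y using Lex.rec with
      | h y =>
        obtain ⟨j', r'⟩ := y
        rcases Prod.Lex.toLex_lt_toLex.1 hc with h1 | ⟨h1, h2⟩
        · have h3 : toLex (j, r + 1) ∈ Ioi (toLex (j, r)) :=
            Prod.Lex.toLex_lt_toLex.2 (Or.inr ⟨rfl, lt_add_one r⟩)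
          have h4 : toLex (j, r + 1) < toLex (j', r') := Prod.Lex.toLex_lt_toLex.2 (Or.inl h1)
          exact absurd h4 (not_lt.2 (hy h3))
        · simp only at h1 h2
          subst h1
          obtain ⟨q, hq1, hq2⟩ := exists_between h2
          have h3 : toLex (j, q) ∈ Ioi (toLex (j, r)) :=
            Prod.Lex.toLex_lt_toLex.2 (Or.inr ⟨rfl, hq1⟩)
          have h4 : toLex (j, q) < toLex (j, r') := Prod.Lex.toLex_lt_toLex.2 (Or.inr ⟨rfl, hq2⟩)
          exact absurd h4 (not_lt.2 (hy h3))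

/-- the image of a long line is convex -/
theorem line_convex [WellFoundedLT J] {U : Type*} [LinearOrder U] {f : J ×ₗ ℝ≥0 → U} (hf : Emb f)
    {a b : J ×ₗ ℝ≥0} {y : U} (hay : f a ≤ y) (hyb : y ≤ f b) : ∃ x, f x = y := by
  let A : Set (J ×ₗ ℝ≥0) := {x | f x ≤ y}
  have hA : b ∈ upperBounds A := fun x hx => hf.mono.le_iff_le.1 (le_trans hx hyb)
  obtain ⟨s, hs⟩ := line_lub A b hA
  have h1 := hf.lub A s ⟨a, hay⟩ hs
  have h2 : f s ≤ y := h1.2 (by
    rintro _ ⟨x, hx, rfl⟩
    exact hx)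
  refine ⟨s, le_antisymm h2 ?_⟩
  by_contra hc
  push Not at hc
  have h3 : s < b := hf.mono.lt_iff_lt.1 (lt_of_lt_of_le hc hyb)
  have h4 := hf.glb _ s ⟨b, h3⟩ (line_glb s)
  have h5 : y ≤ f s := h4.2 (by
    rintro _ ⟨x, hx, rfl⟩
    by_contra h6
    push Not at h6
    exact absurd hx (not_lt.2 (hs.1 h6.le)))
  exact absurd hc (not_lt.2 h5)

end line

/-- points which are limits from the left, but not of a countable set -/
def Mark {U : Type*} [LinearOrder U] (v : U) : Prop :=
  ∀ s : Set U, s.Countable → (∀ x ∈ s, x < v) → ∃ w, w < v ∧ ∀ x ∈ s, x < w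

theorem not_mark {J : Type u} [LinearOrder J] {U : Type*} [LinearOrder U]
    {f : J ×ₗ ℝ≥0 → U} (hf : Emb f) (j : J) {r : ℝ≥0} (hr : r ≠ 0) :
    ¬ Mark (f (toLex (j, r))) := by
  intro hm
  let t : Set (J ×ₗ ℝ≥0) :=
    (fun q : ℚ => toLex (j, Real.toNNReal q)) '' {q | Real.toNNReal q < r}
  have ht : t.Countable := (to_countable _).image _
  have hne : t.Nonempty := ⟨_, 0, by simpa using pos_iff_ne_zero.2 hr, rfl⟩
  have hlt : ∀ x ∈ t, x < toLex (j, r) := by
    rintro _ ⟨q, hq, rfl⟩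
    exact Prod.Lex.toLex_lt_toLex.2 (Or.inr ⟨rfl, hq⟩)
  have hlub : IsLUB t (toLex (j, r)) := by
    refine ⟨fun x hx => (hlt x hx).le, fun y hy => ?_⟩
    by_contra hc
    push Not at hc
    induction y using Lex.rec with
    | h y =>
      obtain ⟨j', r'⟩ := y
      rcases Prod.Lex.toLex_lt_toLex.1 hc with h1 | ⟨h1, h2⟩
      · obtain ⟨_, q, hq, rfl⟩ := hne
        have h4 : toLex (j', r') < toLex (j, Real.toNNReal q) :=
          Prod.Lex.toLex_lt_toLex.2 (Or.inl h1)
        exact absurd h4 (not_lt.2 (hy ⟨q, hq, rfl⟩))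
      · simp only at h1 h2
        subst h1
        obtain ⟨q, -, hq1, hq2⟩ := (NNReal.lt_iff_exists_rat_btwn _ _).1 h2
        have h4 : toLex (j', r') < toLex (j', Real.toNNReal q) :=
          Prod.Lex.toLex_lt_toLex.2 (Or.inr ⟨rfl, hq1⟩)
        exact absurd h4 (not_lt.2 (hy ⟨q, hq2, rfl⟩))
  obtain ⟨w, hw, hw'⟩ := hm (f '' t) (ht.image f) (by
    rintro _ ⟨x, hx, rfl⟩
    exact hf.mono (hlt x hx))
  have := (hf.lub t _ hne hlub).2 fun x hx => (hw' x hx).le
  exact absurd hw (not_lt.2 this)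

theorem is_mark {I W : Type u} [LinearOrder I] [LinearOrder W] (h : IsOmegaOne W)
    {U : Type*} [LinearOrder U] {f : (I ×ₗ WithTop W) ×ₗ ℝ≥0 → U} (hf : Emb f) (i : I) :
    Mark (f (toLex (toLex (i, ⊤), 0))) := by
  have := h.nonempty
  let g : W → (I ×ₗ WithTop W) ×ₗ ℝ≥0 := fun c => toLex (toLex (i, (c : WithTop W)), 0)
  have hg : StrictMono g := fun c d hcd =>
    Prod.Lex.toLex_lt_toLex.2 (Or.inl (Prod.Lex.toLex_lt_toLex.2
      (Or.inr ⟨rfl, WithTop.coe_lt_coe.2 hcd⟩)))
  have hlt : ∀ c, g c < toLex (toLex (i, ⊤), 0) := fun c =>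
    Prod.Lex.toLex_lt_toLex.2 (Or.inl (Prod.Lex.toLex_lt_toLex.2
      (Or.inr ⟨rfl, WithTop.coe_lt_top c⟩)))
  have hlub : IsLUB (range g) (toLex (toLex (i, ⊤), 0)) := by
    constructor
    · rintro _ ⟨c, rfl⟩
      exact (hlt c).le
    · intro y hy
      by_contra hc
      push Not at hc
      induction y using Lex.rec with
      | h y =>
        obtain ⟨j, r⟩ := y
        induction j using Lex.rec with
        | h j =>
          obtain ⟨i', c⟩ := j
          rcases Prod.Lex.toLex_lt_toLex.1 hc with h1 | ⟨-, h2⟩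
          · rcases Prod.Lex.toLex_lt_toLex.1 h1 with h3 | ⟨h3, h4⟩
            · obtain ⟨c0⟩ := (inferInstance : Nonempty W)
              have h4 : toLex (toLex (i', c), r) < g c0 :=
                Prod.Lex.toLex_lt_toLex.2 (Or.inl (Prod.Lex.toLex_lt_toLex.2 (Or.inl h3)))
              exact absurd h4 (not_lt.2 (hy ⟨c0, rfl⟩))
            · simp only at h3 h4
              subst h3
              induction c using WithTop.recTopCoe with
              | top => exact lt_irrefl _ h4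
              | coe c =>
                obtain ⟨c0, hc0⟩ := h.gt c
                have h4 : toLex (toLex (i', (c : WithTop W)), r) < g c0 :=
                  Prod.Lex.toLex_lt_toLex.2 (Or.inl (Prod.Lex.toLex_lt_toLex.2
                    (Or.inr ⟨rfl, WithTop.coe_lt_coe.2 hc0⟩)))
                exact absurd h4 (not_lt.2 (hy ⟨c0, rfl⟩))
          · exact absurd h2 (not_lt.2 zero_le)
  have h1 := hf.lub _ _ (range_nonempty _) hlub
  intro s hs hsv
  have h2 : ∀ x : s, ∃ c, x.1 < f (g c) := by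
    intro x
    obtain ⟨_, ⟨_, ⟨c, rfl⟩, rfl⟩, hc⟩ := (lt_isLUB_iff h1).1 (hsv x.1 x.2)
    exact ⟨c, hc⟩
  choose c hc using h2
  have := hs.to_subtype
  obtain ⟨c', hc'⟩ := h.bdd (countable_range c)
  refine ⟨f (g c'), hf.mono (hlt c'), fun x hx => ?_⟩
  exact lt_trans (hc ⟨x, hx⟩) (hf.mono (hg (hc' _ ⟨⟨x, hx⟩, rfl⟩)))

/-- An order `U` with at least continuum many points does not contain all orders of its size. -/
theorem not_large {U : Type u} [LinearOrder U] (hc : 𝔠 ≤ #U)
    (hU : ∀ (L : Type u) [LinearOrder L], #L ≤ #U → ∃ f : L → U, Emb f) : False := by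
  classical
  obtain ⟨W, _, h⟩ := exists_omegaOne.{u}
  have := h.wf
  have := h.nonempty
  have h0 : ℵ₀ ≤ #U := aleph0_le_continuum.trans hc
  have h1 : ℵ₁ ≤ #U := aleph_one_le_continuum.trans hc
  let M : U × U → Set U := fun p => {w | p.1 ≤ w ∧ w ≤ p.2 ∧ Mark w}
  let o : U × U → Ordinal.{u} := fun p =>
    if hp : WellFoundedLT (M p) then @Ordinal.type (M p) (· < ·) (@isWellOrder_lt _ _ hp) else 0
  have ho : ∀ p, (o p).card ≤ #U := by
    intro p
    simp only [o]
    split_ifs with hp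
    · rw [Ordinal.card_type]
      exact mk_set_le _
    · simp
  let γ : Ordinal.{u} := ⨆ p, o p + 1
  have hγ : ∀ p, o p < γ := fun p => Ordinal.lt_iSup_add_one o p
  have hγc : γ.card ≤ #U := by
    refine (Ordinal.card_iSup_le_sum_card _).trans ?_
    refine (Cardinal.sum_le_sum _ (fun _ => #U) fun p => ?_).trans ?_
    · rw [Ordinal.card_add, Ordinal.card_one]
      calc (o p).card + 1 ≤ #U + 1 := by gcongr; exact ho p
        _ = #U := add_one_eq h0
    · rw [Cardinal.sum_const', mk_prod, lift_id, mul_eq_self h0, mul_eq_self h0]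
  let I := WithTop γ.ToType
  have hI : #I ≤ #U := by
    have : #I = #(Option γ.ToType) := rfl
    rw [this, mk_option, mk_toType]
    calc γ.card + 1 ≤ #U + 1 := by gcongr
      _ = #U := add_one_eq h0
  have hW : #(WithTop W) ≤ #U := by
    have : #(WithTop W) = #(Option W) := rfl
    rw [this, mk_option, h.card, add_one_eq aleph0_lt_aleph_one.le]
    exact h1
  have hJ : #(I ×ₗ WithTop W) ≤ #U := by
    have : #(I ×ₗ WithTop W) = #(I × WithTop W) := rfl
    rw [this, mk_prod, lift_id, lift_id]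
    calc #I * #(WithTop W) ≤ #U * #U := by gcongr
      _ = #U := mul_eq_self h0
  have hL : #((I ×ₗ WithTop W) ×ₗ ℝ≥0) ≤ #U := by
    have : #((I ×ₗ WithTop W) ×ₗ ℝ≥0) = #((I ×ₗ WithTop W) × ℝ≥0) := rfl
    rw [this, mk_prod]
    have h2 : Cardinal.lift.{u} #ℝ≥0 ≤ #U := by
      refine le_trans ?_ hc
      have : #ℝ≥0 ≤ #ℝ := mk_subtype_le _
      rw [mk_real] at this
      simpa using Cardinal.lift_le.{u}.2 this
    calc Cardinal.lift.{0} #(I ×ₗ WithTop W) * Cardinal.lift.{u} #ℝ≥0 ≤ #U * #U := by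
          gcongr
          simpa using hJ
      _ = #U := mul_eq_self h0
  obtain ⟨f, hf⟩ := hU ((I ×ₗ WithTop W) ×ₗ ℝ≥0) hL
  have hne : (Set.univ : Set (I ×ₗ WithTop W)).Nonempty := ⟨toLex (⊤, ⊤), trivial⟩
  let j0 : I ×ₗ WithTop W := wellFounded_lt.min _ hne
  have hj0 : ∀ j, j0 ≤ j := fun j => not_lt.1 (wellFounded_lt.not_lt_min _ (mem_univ j))
  let p : U × U := (f (toLex (j0, 0)), f (toLex (toLex (⊤, ⊤), 0)))
  let F : I ×ₗ WithTop W → U := fun j => f (toLex (j, 0))
  have hF : StrictMono F := fun a b hab => hf.mono (Prod.Lex.toLex_lt_toLex.2 (Or.inl hab))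
  have hM : ∀ w : M p, ∃ j, F j = w.1 := by
    rintro ⟨w, hw1, hw2, hw3⟩
    obtain ⟨x, rfl⟩ := line_convex hf hw1 hw2
    induction x using Lex.rec with
    | h x =>
      obtain ⟨j, r⟩ := x
      by_cases hr : r = 0
      · subst hr
        exact ⟨j, rfl⟩
      · exact absurd hw3 (not_mark hf j hr)
  choose k hk using hM
  have hk' : StrictMono k := by
    intro a b hab
    rw [← hF.lt_iff_lt, hk, hk]
    exact hab
  have hwf : WellFoundedLT (M p) := hk'.wellFoundedLT
  have hin : ∀ i : γ.ToType, F (toLex ((i : I), ⊤)) ∈ M p := by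
    intro i
    refine ⟨hF.monotone (hj0 _), hF.monotone ?_, is_mark h hf _⟩
    exact Prod.Lex.toLex_le_toLex.2 (Or.inl (WithTop.coe_lt_top i))
  let G : γ.ToType → M p := fun i => ⟨_, hin i⟩
  have hG : StrictMono G := fun a b hab =>
    hF (Prod.Lex.toLex_lt_toLex.2 (Or.inl (WithTop.coe_lt_coe.2 hab)))
  have h2 : γ ≤ o p := by
    simp only [o]
    rw [dif_pos hwf]
    conv_lhs => rw [← Ordinal.type_toType γ]
    rw [Ordinal.type_le_iff']
    exact ⟨(OrderEmbedding.ofStrictMono G hG).ltEmbedding⟩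
  exact absurd (hγ p) (not_lt.2 h2)

/-- No uncountable order contains all orders of its size through continuous embeddings. -/
theorem main {U : Type u} [LinearOrder U] (h0 : ℵ₀ < #U)
    (hU : ∀ (L : Type u) [LinearOrder L], #L = #U → ∃ f : L → U, Function.Injective f ∧
      Monotone f ∧ @Continuous L U (Preorder.topology L) (Preorder.topology U) f) : False := by
  have h1 : ∀ (L : Type u) [LinearOrder L], #L ≤ #U → ∃ f : L → U, Emb f := by
    intro L _ hL
    have h2 : #(L ⊕ₗ U) = #U := by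
      have : #(L ⊕ₗ U) = #(L ⊕ U) := rfl
      rw [this, mk_sum, lift_id, lift_id]
      exact add_eq_right h0.le hL
    obtain ⟨f, hf1, hf2, hf3⟩ := hU (L ⊕ₗ U) h2
    exact ⟨_, (emb_of_continuous hf1 hf2 hf3).comp (emb_inl L U)⟩
  refine not_large (continuum_le fun L _ hL => h1 L (hL.trans ?_)) h1
  exact aleph_one_le_iff.2 h0

end Pool.Agent.H75Z.Lots
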