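import Pool.Agent.H75Z.LotsBasic

set_option autoImplicit false

open Set Cardinal

namespace Pool.Agent.H75Z.Lots

universe u

section stationary

variable {W : Type u} [LinearOrder W]

theorem IsOmegaOne.not_stationary_of_subsingleton (h : IsOmegaOne W) {s : Set W}
    (hs : s.Subsingleton) : ¬ IsStationary s := by
  obtain ⟨b, hb⟩ := h.bdd hs.countable
  rw [not_isStationary_iff]
  refine ⟨Ici b, ⟨?_, fun a => ⟨max a b, le_max_right _ _, le_max_left _ _⟩⟩, ?_⟩
  · intro d hd hne _ a ha
    obtain ⟨x, hx⟩ := hne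
    exact le_trans (hd hx) (ha.1 hx)
  · rw [Set.disjoint_left]
    intro a ha hab
    exact absurd (hb a ha) (not_lt.2 hab)

theorem IsOmegaOne.split (h : IsOmegaOne W) {A : Set W} (hA : IsStationary A) :
    ∃ B C : Set W, IsStationary B ∧ IsStationary C ∧ B ⊆ A ∧ C ⊆ A ∧ Disjoint B C := by
  have := h.wf
  have hle : Cardinal.lift.{0} #W ≤ Cardinal.lift.{u} #(Set ℕ) := by
    rw [h.card]
    simpa using aleph0_lt_continuum
  obtain ⟨e⟩ := Cardinal.lift_mk_le'.1 hle
  by_contra hc
  push Not at hc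
  have h1 : ∀ n : ℕ, ∃ b : Prop, ¬ IsStationary (A ∩ {a | ¬ (n ∈ e a ↔ b)}) := by
    intro n
    by_contra hn
    push Not at hn
    refine hc (A ∩ {a | ¬ (n ∈ e a ↔ True)}) (A ∩ {a | ¬ (n ∈ e a ↔ False)}) ?_ ?_
      inter_subset_left inter_subset_left ?_
    · simpa using hn True
    · simpa using hn False
    · rw [Set.disjoint_left]
      intro a ha hb
      have h1 := ha.2
      have h2 := hb.2
      simp at h1 h2
      exact h1 h2
  choose b hb using h1
  have h2 : ¬ IsStationary (⋃ n, A ∩ {a | ¬ (n ∈ e a ↔ b n)}) := by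
    rw [isStationary_iUnion_iff_of_countable h.cof_ne]
    rintro ⟨n, hn⟩
    exact hb n hn
  have h3 : ¬ IsStationary {a | e a = {n | b n}} := by
    apply h.not_stationary_of_subsingleton
    intro x hx y hy
    apply e.injective
    rw [hx, hy]
  have h4 : A ⊆ (⋃ n, A ∩ {a | ¬ (n ∈ e a ↔ b n)}) ∪ {a | e a = {n | b n}} := by
    intro a ha
    by_cases h5 : e a = {n | b n}
    · exact Or.inr h5
    · left
      rw [Set.ext_iff] at h5
      push Not at h5
      obtain ⟨n, hn⟩ := h5
      refine mem_iUnion.2 ⟨n, ha, ?_⟩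
      simp only [mem_setOf_eq] at hn ⊢
      tauto
  have h5 := hA.mono h4
  rw [isStationary_union_iff h.cof_ne] at h5
  tauto

theorem IsOmegaOne.exists_family (h : IsOmegaOne W) :
    ∃ A : ℕ → Set W, (∀ n, IsStationary (A n)) ∧ ∀ m n, m ≠ n → Disjoint (A m) (A n) := by
  have := h.nonempty
  choose B C hB hC hBA hCA hd using fun A : {A : Set W // IsStationary A} => h.split A.2
  let F : {A : Set W // IsStationary A} → {A : Set W // IsStationary A} := fun A => ⟨C A, hC A⟩
  let T : ℕ → {A : Set W // IsStationary A} := fun n => F^[n] ⟨Set.univ, IsStationary.univ⟩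
  have hT : ∀ n, (T (n + 1)).1 = C (T n) := by
    intro n
    simp only [T, Function.iterate_succ_apply']
    rfl
  have hanti : Antitone fun n => (T n).1 := by
    apply antitone_nat_of_succ_le
    intro n
    rw [hT]
    exact hCA _
  have key : ∀ m n, m < n → Disjoint (B (T m)) (B (T n)) := by
    intro m n hmn
    refine (hd (T m)).mono_right ?_
    rw [← hT]
    exact (hBA _).trans (hanti hmn)
  refine ⟨fun n => B (T n), fun n => hB _, fun m n hmn => ?_⟩
  rcases lt_or_gt_of_ne hmn with h1 | h1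
  · exact key m n h1
  · exact (key n m h1).symm

/-- two continuous increasing sequences with the same supremum agree on a club -/
theorem IsOmegaOne.club_agree (h : IsOmegaOne W) {U : Type*} [LinearOrder U] {a b : W → U} {u : U}
    (ha : StrictMono a) (hb : StrictMono b)
    (ha' : ∀ s x, s.Nonempty → IsLUB s x → IsLUB (a '' s) (a x))
    (hb' : ∀ s x, s.Nonempty → IsLUB s x → IsLUB (b '' s) (b x))
    (hau : IsLUB (range a) u) (hbu : IsLUB (range b) u) : IsClub {x | a x = b x} := by
  constructor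
  · intro d hd hne _ x hx
    have h1 := ha' d x hne hx
    have h2 := hb' d x hne hx
    have h3 : a '' d = b '' d := image_congr fun y hy => hd hy
    rw [h3] at h1
    exact h1.unique h2
  · have step : ∀ x, ∃ y, x ≤ y ∧ a x ≤ b y ∧ b x ≤ a y := by
      intro x
      obtain ⟨x', hx'⟩ := h.gt x
      have h1 : a x < u := lt_of_lt_of_le (ha hx') (hau.1 ⟨x', rfl⟩)
      have h2 : b x < u := lt_of_lt_of_le (hb hx') (hbu.1 ⟨x', rfl⟩)
      obtain ⟨_, ⟨y1, rfl⟩, hy1⟩ := (lt_isLUB_iff hbu).1 h1
      obtain ⟨_, ⟨y2, rfl⟩, hy2⟩ := (lt_isLUB_iff hau).1 h2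
      refine ⟨max x (max y1 y2), le_max_left _ _, hy1.le.trans (hb.monotone ?_),
        hy2.le.trans (ha.monotone ?_)⟩
      · exact le_trans (le_max_left _ _) (le_max_right _ _)
      · exact le_trans (le_max_right _ _) (le_max_right _ _)
    choose g hg1 hg2 hg3 using step
    intro x
    obtain ⟨y, hy⟩ := h.exists_lub (countable_range fun n : ℕ => g^[n] x)
    have h1 := ha' _ y (range_nonempty _) hy
    have h2 := hb' _ y (range_nonempty _) hy
    refine ⟨y, le_antisymm ?_ ?_, hy.1 ⟨0, rfl⟩⟩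
    · apply h1.2
      rintro _ ⟨_, ⟨n, rfl⟩, rfl⟩
      refine (hg2 _).trans (h2.1 ⟨_, ⟨n + 1, ?_⟩, rfl⟩)
      simp only [Function.iterate_succ_apply']
    · apply h2.2
      rintro _ ⟨_, ⟨n, rfl⟩, rfl⟩
      refine (hg3 _).trans (h1.1 ⟨_, ⟨n + 1, ?_⟩, rfl⟩)
      simp only [Function.iterate_succ_apply']

end stationary

section order

variable {W : Type u} [LinearOrder W]

/-- the order coded by `S`: above each point `(a, ⊥)` sits a decreasing sequence, of length `ω` if
`a ∈ S` and of length `W` otherwise -/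
def Code (e : ℕ → W) (S : Set W) : Type u :=
  {x : W ×ₗ WithBot Wᵒᵈ // (ofLex x).1 ∈ S →
    (ofLex x).2 = ⊥ ∨ ∃ n, (ofLex x).2 = ((OrderDual.toDual (e n) : Wᵒᵈ) : WithBot Wᵒᵈ)}

noncomputable instance (e : ℕ → W) (S : Set W) : LinearOrder (Code e S) :=
  inferInstanceAs (LinearOrder {x : W ×ₗ WithBot Wᵒᵈ // (ofLex x).1 ∈ S →
    (ofLex x).2 = ⊥ ∨ ∃ n, (ofLex x).2 = ((OrderDual.toDual (e n) : Wᵒᵈ) : WithBot Wᵒᵈ)})

/-- the base points -/
def base (e : ℕ → W) (S : Set W) (a : W) : WithTop (Code e S) :=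
  WithTop.some (show Code e S from ⟨toLex (a, ⊥), fun _ => Or.inl rfl⟩)

theorem code_le (e : ℕ → W) (S : Set W) (x y : Code e S) : x ≤ y ↔ x.1 ≤ y.1 := Iff.rfl
theorem code_lt (e : ℕ → W) (S : Set W) (x y : Code e S) : x < y ↔ x.1 < y.1 := Iff.rfl

theorem base_mono (e : ℕ → W) (S : Set W) : StrictMono (base e S) := by
  intro a b hab
  unfold base
  rw [WithTop.coe_lt_coe, code_lt]
  exact Prod.Lex.toLex_lt_toLex.2 (Or.inl hab)

theorem base_le_iff (e : ℕ → W) (S : Set W) (a : W) (y : Code e S) :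
    base e S a ≤ (y : WithTop (Code e S)) ↔ a ≤ (ofLex y.1).1 := by
  unfold base
  rw [WithTop.coe_le_coe, code_le]
  obtain ⟨y, hy⟩ := y
  induction y using Lex.rec with
  | h y =>
    obtain ⟨y1, y2⟩ := y
    simp only [Prod.Lex.toLex_le_toLex, ofLex_toLex, bot_le, and_true]
    exact le_iff_lt_or_eq.symm

theorem base_lub (e : ℕ → W) (S : Set W) (s : Set W) (x : W) (hx : IsLUB s x) :
    IsLUB (base e S '' s) (base e S x) := by
  constructor
  · rintro _ ⟨y, hy, rfl⟩
    exact (base_mono e S).monotone (hx.1 hy)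
  · intro y hy
    induction y using WithTop.recTopCoe with
    | top => exact le_top
    | coe y =>
      rw [base_le_iff]
      apply hx.2
      intro z hz
      rw [← base_le_iff]
      exact hy ⟨z, hz, rfl⟩

theorem base_top (h : IsOmegaOne W) (e : ℕ → W) (S : Set W) :
    IsLUB (range (base e S)) ⊤ := by
  constructor
  · intro y _
    exact le_top
  · intro y hy
    induction y using WithTop.recTopCoe with
    | top => exact le_top
    | coe y =>
      obtain ⟨b, hb⟩ := h.gt (ofLex y.1).1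
      have := hy ⟨b, rfl⟩
      rw [base_le_iff] at this
      exact absurd hb (not_lt.2 this)

/-- an infimum criterion at a base point -/
theorem base_glb (e : ℕ → W) (S : Set W) (a : W) {ι : Type*} [Nonempty ι] (c : ι → W)
    (hc : ∀ i, a ∈ S → ∃ n, c i = e n)
    (hcof : ∀ w : W, (a ∈ S → ∃ n, w = e n) → ∃ i, w < c i) :
    ∃ g : ι → WithTop (Code e S), (∀ i, base e S a < g i) ∧ (∀ i j, c i ≤ c j → g j ≤ g i) ∧
      IsGLB (range g) (base e S a) := by
  let g : ι → WithTop (Code e S) := fun i =>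
    WithTop.some (show Code e S from
      ⟨toLex (a, ((OrderDual.toDual (c i) : Wᵒᵈ) : WithBot Wᵒᵈ)), fun ha => Or.inr (by
      obtain ⟨n, hn⟩ := hc i ha
      exact ⟨n, by rw [← hn]; rfl⟩)⟩)
  have h1 : ∀ i, base e S a < g i := by
    intro i
    unfold base
    simp only [g]
    rw [WithTop.coe_lt_coe, code_lt]
    exact Prod.Lex.toLex_lt_toLex.2 (Or.inr ⟨rfl, WithBot.bot_lt_coe _⟩)
  refine ⟨g, h1, fun i j hij => ?_, ?_, ?_⟩
  · simp only [g]
    rw [WithTop.coe_le_coe, code_le]
    exact Prod.Lex.toLex_le_toLex.2 (Or.inr ⟨rfl, WithBot.coe_le_coe.2 hij⟩)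
  · rintro _ ⟨i, rfl⟩
    exact (h1 i).le
  · intro y hy
    induction y using WithTop.recTopCoe with
    | top =>
      obtain ⟨i⟩ := (inferInstance : Nonempty ι)
      have := hy ⟨i, rfl⟩
      simp [g] at this
    | coe y =>
      obtain ⟨y, hyS⟩ := y
      induction y using Lex.rec with
      | h y =>
        obtain ⟨y1, y2⟩ := y
        have h2 : ∀ i, y1 < a ∨ y1 = a ∧ y2 ≤ ((OrderDual.toDual (c i) : Wᵒᵈ) : WithBot Wᵒᵈ) := by
          intro i
          have := hy ⟨i, rfl⟩
          simp only [g] at this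
          rw [WithTop.coe_le_coe, code_le] at this
          exact Prod.Lex.toLex_le_toLex.1 this
        unfold base
        rw [WithTop.coe_le_coe, code_le]
        apply Prod.Lex.toLex_le_toLex.2
        by_cases h3 : y1 < a
        · exact Or.inl h3
        · right
          obtain ⟨i0⟩ := (inferInstance : Nonempty ι)
          have h4 : y1 = a := ((h2 i0).resolve_left h3).1
          refine ⟨h4, ?_⟩
          subst h4
          induction y2 using WithBot.recBotCoe with
          | bot => exact le_rfl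
          | coe w =>
            exfalso
            have h5 : y1 ∈ S → ∃ n, OrderDual.ofDual w = e n := by
              intro hS
              rcases hyS hS with h6 | ⟨n, hn⟩
              · exact absurd h6 WithBot.coe_ne_bot
              · refine ⟨n, ?_⟩
                have : w = OrderDual.toDual (e n) := WithBot.coe_injective hn
                rw [this]
                rfl
            obtain ⟨i, hi⟩ := hcof _ h5
            have h6 := ((h2 i).resolve_left h3).2
            rw [WithBot.coe_le_coe] at h6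
            exact absurd hi (not_lt.2 h6)

theorem card_code (h : IsOmegaOne W) (e : ℕ → W) (S : Set W) : #(WithTop (Code e S)) ≤ ℵ₁ := by
  have h0 : (ℵ₀ : Cardinal.{u}) ≤ ℵ₁ := aleph0_lt_aleph_one.le
  have h1 : #(WithBot Wᵒᵈ) = ℵ₁ := by
    have : #(WithBot Wᵒᵈ) = #(Option W) := rfl
    rw [this, mk_option, h.card, add_one_eq h0]
  have h2 : #(W ×ₗ WithBot Wᵒᵈ) = ℵ₁ := by
    have : #(W ×ₗ WithBot Wᵒᵈ) = #(W × WithBot Wᵒᵈ) := rfl
    rw [this, mk_prod, h1, h.card, lift_id, mul_eq_self h0]
  have h3 : #(Code e S) ≤ ℵ₁ := by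
    rw [← h2]
    exact mk_subtype_le _
  have h4 : #(WithTop (Code e S)) = #(Option (Code e S)) := rfl
  rw [h4, mk_option]
  calc #(Code e S) + 1 ≤ ℵ₁ + 1 := by gcongr
    _ = ℵ₁ := add_one_eq h0

end order

/-- If every order of size at most `ℵ₁` embeds in `U`, then `U` has at least continuum many
points. -/
theorem continuum_le {U : Type u} [LinearOrder U]
    (hU : ∀ (L : Type u) [LinearOrder L], #L ≤ ℵ₁ → ∃ f : L → U, Emb f) : 𝔠 ≤ #U := by
  obtain ⟨W, _, h⟩ := exists_omegaOne.{u}
  have := h.nonempty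
  obtain ⟨A, hA, hAd⟩ := h.exists_family
  obtain ⟨e, he⟩ : ∃ e : ℕ → W, StrictMono e := by
    have : NoMaxOrder W := ⟨h.gt⟩
    exact Nat.exists_strictMono W
  let S : Set ℕ → Set W := fun X => ⋃ n ∈ X, A n
  choose f hf using fun X : Set ℕ => hU (WithTop (Code e (S X))) (card_code h e (S X))
  have key : ∀ X Y : Set ℕ, f X ⊤ = f Y ⊤ → X ⊆ Y := by
    intro X Y hXY n hnX
    by_contra hnY
    have hclub : IsClub {x | (f X ∘ base e (S X)) x = (f Y ∘ base e (S Y)) x} := by
      refine h.club_agree (u := f X ⊤) ((hf X).mono.comp (base_mono _ _))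
        ((hf Y).mono.comp (base_mono _ _)) ?_ ?_ ?_ ?_
      · intro s x hs hx
        rw [image_comp]
        exact (hf X).lub _ _ (hs.image _) (base_lub e _ s x hx)
      · intro s x hs hx
        rw [image_comp]
        exact (hf Y).lub _ _ (hs.image _) (base_lub e _ s x hx)
      · rw [range_comp]
        exact (hf X).lub _ _ (range_nonempty _) (base_top h e _)
      · rw [range_comp, hXY]
        exact (hf Y).lub _ _ (range_nonempty _) (base_top h e _)
    obtain ⟨d, hdA, hd⟩ := hA n hclub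
    have hdX : d ∈ S X := mem_biUnion hnX hdA
    have hdY : d ∉ S Y := by
      intro hd'
      obtain ⟨m, hm, hm'⟩ := mem_iUnion₂.1 hd'
      have hmn : m ≠ n := fun h' => hnY (h' ▸ hm)
      exact Set.disjoint_left.1 (hAd m n hmn) hm' hdA
    obtain ⟨g1, hg1, -, hg1'⟩ := base_glb e (S X) d e (fun i _ => ⟨i, rfl⟩) (by
      intro w hw
      obtain ⟨n, rfl⟩ := hw hdX
      exact ⟨n + 1, he (Nat.lt_succ_self n)⟩)
    obtain ⟨g2, hg2, hg2m, hg2'⟩ := base_glb e (S Y) d (id : W → W) (fun i hi => absurd hi hdY)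
      (fun w _ => h.gt w)
    have h1 := (hf X).glb _ _ (range_nonempty _) hg1'
    have h2 := (hf Y).glb _ _ (range_nonempty _) hg2'
    simp only [mem_setOf_eq, Function.comp_apply] at hd
    have h3 : ∀ k : ℕ, ∃ c : W, f Y (g2 c) < f X (g1 k) := by
      intro k
      have : f Y (base e (S Y) d) < f X (g1 k) := by
        rw [← hd]
        exact (hf X).mono (hg1 k)
      obtain ⟨_, ⟨_, ⟨c, rfl⟩, rfl⟩, hc⟩ := (isGLB_lt_iff h2).1 this
      exact ⟨c, hc⟩
    choose c hc using h3
    obtain ⟨c', hc'⟩ := h.bdd (countable_range c)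
    have h4 : f Y (g2 c') ≤ f X (base e (S X) d) := by
      apply h1.2
      rintro _ ⟨_, ⟨k, rfl⟩, rfl⟩
      exact le_trans ((hf Y).mono.monotone (hg2m _ _ (hc' _ ⟨k, rfl⟩).le)) (hc k).le
    rw [hd] at h4
    exact absurd ((hf Y).mono (hg2 c')) (not_lt.2 h4)
  have hinj : Function.Injective fun X : Set ℕ => f X ⊤ := fun X Y hXY =>
    Subset.antisymm (key X Y hXY) (key Y X hXY.symm)
  have := Cardinal.lift_mk_le_lift_mk_of_injective hinj
  simpa using this

end Pool.Agent.H75Z.Lots
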