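import Mathlib

set_option autoImplicit false
set_option maxHeartbeats 400000

namespace Pool.Agent.H75Z.Peak

open Polynomial

/-- Nonnegative combinations of `X^j (1+X)^r` with centre of symmetry at least `N/2`. -/
inductive Cone (N : ℤ) : ℝ[X] → Prop
  | gen (c : ℝ) (hc : 0 ≤ c) (j r : ℕ) (h : N ≤ 2 * j + r) : Cone N (C c * X ^ j * (1 + X) ^ r)
  | zero : Cone N 0
  | add {f g : ℝ[X]} : Cone N f → Cone N g → Cone N (f + g)

theorem Cone.mono {N M : ℤ} {f : ℝ[X]} (hf : Cone N f) (h : M ≤ N) : Cone M f := by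
  induction hf with
  | gen c hc j r h' => exact Cone.gen c hc j r (h.trans h')
  | zero => exact Cone.zero
  | add _ _ h1 h2 => exact h1.add h2

theorem Cone.mul {N M : ℤ} {f g : ℝ[X]} (hf : Cone N f) (hg : Cone M g) :
    Cone (N + M) (f * g) := by
  induction hf with
  | gen c hc j r h' =>
    induction hg with
    | gen c' hc' j' r' h'' =>
      have : C c * X ^ j * (1 + X) ^ r * (C c' * X ^ j' * (1 + X) ^ r')
          = C (c * c') * X ^ (j + j') * (1 + X : ℝ[X]) ^ (r + r') := by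
        rw [C_mul]; ring
      rw [this]
      exact Cone.gen _ (mul_nonneg hc hc') _ _ (by push_cast; linarith)
    | zero => rw [mul_zero]; exact Cone.zero
    | add _ _ h1 h2 => rw [mul_add]; exact h1.add h2
  | zero => rw [zero_mul]; exact Cone.zero
  | add _ _ h1 h2 => rw [add_mul]; exact h1.add h2

theorem Cone.mul' {N M K : ℤ} {f g : ℝ[X]} (hf : Cone N f) (hg : Cone M g) (h : K ≤ N + M) :
    Cone K (f * g) := (hf.mul hg).mono h

theorem cone_C {c : ℝ} (hc : 0 ≤ c) {N : ℤ} (hN : N ≤ 0) : Cone N (C c) := by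
  have := Cone.gen (N := N) c hc 0 0 (by simpa using hN)
  simpa using this

theorem cone_X : Cone 2 X := by
  have := Cone.gen (N := 2) 1 zero_le_one 1 0 (by simp)
  simpa using this

theorem cone_one_add_X : Cone 1 (1 + X) := by
  have := Cone.gen (N := 1) 1 zero_le_one 0 1 (by simp)
  simpa using this

theorem Cone.coeff_nonneg {N : ℤ} {f : ℝ[X]} (hf : Cone N f) (k : ℕ) : 0 ≤ f.coeff k := by
  induction hf with
  | gen c hc j r h' =>
    rw [mul_assoc, coeff_C_mul, coeff_X_pow_mul']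
    refine mul_nonneg hc ?_
    split_ifs
    · rw [coeff_one_add_X_pow]; positivity
    · exact le_rfl
  | zero => simp
  | add _ _ h1 h2 => rw [coeff_add]; positivity

theorem Cone.eval_nonneg {N : ℤ} {f : ℝ[X]} (hf : Cone N f) {y : ℝ} (hy : 0 ≤ y) :
    0 ≤ f.eval y := by
  induction hf with
  | gen c hc j r h' => simp only [eval_mul, eval_C, eval_pow, eval_X, eval_add, eval_one]; positivity
  | zero => simp
  | add _ _ h1 h2 => rw [eval_add]; positivity

/-- The dual description of monotonicity of the low coefficients. -/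
def KC (N : ℤ) (f : ℝ[X]) : Prop :=
  ∀ r k : ℕ, 2 * (k : ℤ) ≤ N + r + 1 → 0 ≤ ((1 - X) * (1 + X) ^ r * f).coeff k

theorem KC.add {N : ℤ} {f g : ℝ[X]} (hf : KC N f) (hg : KC N g) : KC N (f + g) := by
  intro r k h
  rw [mul_add, coeff_add]
  exact add_nonneg (hf r k h) (hg r k h)

theorem KC.mono {N M : ℤ} {f : ℝ[X]} (hf : KC N f) (h : M ≤ N) : KC M f :=
  fun r k hk => hf r k (by linarith)

theorem KC.cone_mul {N M : ℤ} {f g : ℝ[X]} (hf : Cone N f) (hg : KC M g) :
    KC (N + M) (f * g) := by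
  induction hf with
  | gen c hc j r h' =>
    intro r' k hk
    have : (1 - X) * (1 + X) ^ r' * (C c * X ^ j * (1 + X) ^ r * g)
        = C c * (X ^ j * ((1 - X) * (1 + X) ^ (r' + r) * g)) := by ring
    rw [this, coeff_C_mul, coeff_X_pow_mul']
    refine mul_nonneg hc ?_
    split_ifs with hj
    · apply hg
      push_cast [hj]
      linarith
    · exact le_rfl
  | zero => intro r k _; simp
  | add _ _ h1 h2 => rw [add_mul]; exact h1.add h2

theorem KC.cone_mul' {N M K : ℤ} {f g : ℝ[X]} (hf : Cone N f) (hg : KC M g) (h : K ≤ N + M) :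
    KC K (f * g) := (KC.cone_mul hf hg).mono h

theorem choose_rel (r k : ℕ) (h : k ≤ r) :
    (r.choose (k + 1) : ℝ) * (k + 1) = r.choose k * (r - k) := by
  have := Nat.choose_succ_right_eq r k
  have h2 : ((r.choose (k + 1) * (k + 1) : ℕ) : ℝ) = ((r.choose k * (r - k) : ℕ) : ℝ) := by
    rw [this]
  push_cast [h] at h2
  exact h2

theorem coeff_lin (a : ℝ) (r k : ℕ) :
    ((1 - X) * (1 + X) ^ r * (C a - X) : ℝ[X]).coeff k =
      a * r.choose k - (a + 1) * (if 1 ≤ k then (r.choose (k - 1) : ℝ) else 0)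
        + (if 2 ≤ k then (r.choose (k - 2) : ℝ) else 0) := by
  have : ((1 - X) * (1 + X) ^ r * (C a - X) : ℝ[X])
      = C a * (1 + X) ^ r - C (a + 1) * (X ^ 1 * (1 + X) ^ r) + X ^ 2 * (1 + X) ^ r := by
    rw [C_add, C_1]; ring
  rw [this, coeff_add, coeff_sub, coeff_C_mul, coeff_C_mul, coeff_X_pow_mul', coeff_X_pow_mul']
  simp only [coeff_one_add_X_pow]

theorem KC_one : KC 0 1 := by
  intro r k h
  have : ((1 - X) * (1 + X) ^ r * 1 : ℝ[X]) = (1 + X) ^ r - X ^ 1 * (1 + X) ^ r := by ring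
  rw [this, coeff_sub, coeff_X_pow_mul']
  simp only [coeff_one_add_X_pow]
  split_ifs with hk
  · obtain ⟨i, rfl⟩ : ∃ i, k = i + 1 := ⟨k - 1, by omega⟩
    simp only [Nat.add_sub_cancel]
    have hi : i ≤ r := by omega
    have e := choose_rel r i hi
    have h1 : (0 : ℝ) ≤ r.choose i := by positivity
    have h2 : (2 * i + 1 : ℝ) ≤ r := by
      have : 2 * i + 1 ≤ r := by omega
      exact_mod_cast this
    have hp : (0 : ℝ) < i + 1 := by positivity
    have : (r.choose i : ℝ) * (i + 1) ≤ r.choose (i + 1) * (i + 1) := by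
      rw [e]; apply mul_le_mul_of_nonneg_left _ h1; linarith
    have := le_of_mul_le_mul_right this hp
    linarith
  · simp

theorem Cone.kc {N : ℤ} {f : ℝ[X]} (hf : Cone N f) : KC N f := by
  have := KC.cone_mul hf KC_one
  simpa using this

theorem KC_lin (a : ℝ) (d : ℕ) (ha : (a = 3 ∧ d = 0) ∨ (a = 2 ∧ d = 1)) :
    KC (-1 - d) (C a - X) := by
  intro r k h
  rw [coeff_lin]
  have ha0 : 0 ≤ a := by rcases ha with ⟨rfl, _⟩ | ⟨rfl, _⟩ <;> norm_num
  have hr : 2 * k + d ≤ r := by omega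
  rcases k with _ | _ | i
  · simpa using ha0
  · simp only [zero_add, Nat.choose_one_right, le_refl, if_true, Nat.sub_self,
      Nat.choose_zero_right, Nat.cast_one, mul_one]
    have : ((2 + d : ℕ) : ℝ) ≤ r := by exact_mod_cast (by omega : 2 + d ≤ r)
    push_cast at this
    have h2 : ¬ (2 ≤ 1) := by omega
    simp only [h2, if_false]
    rcases ha with ⟨rfl, rfl⟩ | ⟨rfl, rfl⟩ <;> push_cast at this <;> linarith
  · have e1 := choose_rel r i (by omega)
    have e2 := choose_rel r (i + 1) (by omega)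
    have h1 : 1 ≤ i + 1 + 1 := by omega
    have h2 : 2 ≤ i + 1 + 1 := by omega
    simp only [h1, h2, if_true]
    have s1 : i + 1 + 1 - 1 = i + 1 := by omega
    have s2 : i + 1 + 1 - 2 = i := by omega
    rw [s1, s2]
    have hx1 : (0 : ℝ) ≤ (r.choose (i + 1) : ℕ) := by positivity
    generalize ((r.choose i : ℕ) : ℝ) = x0 at *
    generalize ((r.choose (i + 1) : ℕ) : ℝ) = x1 at *
    generalize ((r.choose (i + 1 + 1) : ℕ) : ℝ) = x2 at *
    obtain ⟨m, rfl⟩ : ∃ m, r = 2 * (i + 2) + d + m := ⟨r - (2 * (i + 2) + d), by omega⟩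
    push_cast at e1 e2
    have hi : (0 : ℝ) ≤ i := by positivity
    have hm : (0 : ℝ) ≤ m := by positivity
    have hpos : (0 : ℝ) < (i + 2) * (i + 4 + d + m) := by positivity
    have key : (a * x2 - (a + 1) * x1 + x0) * ((i + 2) * (i + 4 + d + m))
        = x1 * (a * (i + 3 + d + m) * (i + 4 + d + m) - (a + 1) * (i + 2) * (i + 4 + d + m)
          + (i + 1) * (i + 2)) := by
      linear_combination (a * (i + 4 + d + m)) * e2 - (i + 2) * e1
    have hq : 0 ≤ a * (i + 3 + d + m) * (i + 4 + d + m) - (a + 1) * (i + 2) * (i + 4 + d + m)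
          + (i + 1) * (i + 2) := by
      rcases ha with ⟨rfl, rfl⟩ | ⟨rfl, rfl⟩ <;> push_cast <;>
        nlinarith [mul_nonneg hi hm, mul_nonneg hm hm]
    have := mul_nonneg hx1 hq
    rw [← key] at this
    exact nonneg_of_mul_nonneg_left this hpos

theorem KC_three : KC (-1) (C 3 - X) := by simpa using KC_lin 3 0 (Or.inl ⟨rfl, rfl⟩)

theorem KC_two : KC (-2) (C 2 - X) := by
  have := KC_lin 2 1 (Or.inr ⟨rfl, rfl⟩)
  norm_num at this
  exact this

theorem KC.coeff_le {N : ℤ} {f : ℝ[X]} (hf : KC N f) (k : ℕ) (hk : 2 * (k : ℤ) + 1 ≤ N) :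
    f.coeff k ≤ f.coeff (k + 1) := by
  have := hf 0 (k + 1) (by push_cast; linarith)
  have e : ((1 - X) * (1 + X) ^ 0 * f : ℝ[X]) = f - X * f := by ring
  rw [e, coeff_sub, coeff_X_mul] at this
  linarith

end Pool.Agent.H75Z.Peak
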