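import Pool.Agent.H75Z.PeakMatrix

set_option autoImplicit false
set_option maxHeartbeats 400000

namespace Pool.Agent.H75Z.Peak

open Polynomial

/-- The invariant of the monomer-dimer recursion; `r` stands for the square root of five. -/
def Inv0 (r s v m : ℝ) : Prop :=
  1 ≤ s ∧ (5 - r) / 10 ≤ v ∧ 0 ≤ m ∧ m ≤ s - 1 ∧ m ≤ v * s ∧ r / 5 ≤ v * (s + (r - 1) / 2) - m

theorem inv0_step {r s1 v1 m1 ρ u η : ℝ} (hr : r ^ 2 = 5) (hr1 : 2 < r) (hr2 : r < 3)
    (h1 : Inv0 r s1 v1 m1) (hρ0 : 0 ≤ ρ) (hρ1 : ρ ≤ 1) (hu : 0 ≤ u) (hη0 : 0 ≤ η) (hη1 : η ≤ 1)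
    (hI : (5 + r) / 10 * ρ ≤ u * ((r + 1) / 2 + ρ) + ρ * η) :
    Inv0 r (s1 + ρ) (v1 + u) (m1 + ρ * (1 - η)) := by
  obtain ⟨a1, a2, a3, a4, a5, a6⟩ := h1
  have e1 : 0 ≤ (v1 - (5 - r) / 10) * ρ := mul_nonneg (by linarith) hρ0
  have e2 : 0 ≤ u * (s1 - 1) := mul_nonneg hu (by linarith)
  have e3 : 0 ≤ ρ * η := mul_nonneg hρ0 hη0
  have e4 : 0 ≤ ρ * (1 - η) := mul_nonneg hρ0 (by linarith)
  have I1 : r / 5 ≤ (v1 + u) * (s1 + ρ + (r - 1) / 2) - (m1 + ρ * (1 - η)) := by nlinarith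
  refine ⟨by linarith, by linarith, by linarith, by nlinarith, ?_, I1⟩
  by_cases c1 : v1 + u ≤ (5 + r) / 10
  · have : (v1 + u) * ((r - 1) / 2) ≤ (5 + r) / 10 * ((r - 1) / 2) :=
      mul_le_mul_of_nonneg_right c1 (by linarith)
    nlinarith
  by_cases c2 : (r + 1) / 2 ≤ s1
  · have : 0 ≤ u * (s1 - (r + 1) / 2) := mul_nonneg hu (by linarith)
    nlinarith
  · push Not at c1 c2
    have h5 : (5 + r) / 10 * (s1 + ρ) ≤ (v1 + u) * (s1 + ρ) :=
      mul_le_mul_of_nonneg_right c1.le (by linarith)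
    have h6 : (5 - r) / 10 * (s1 + ρ) ≤ (5 - r) / 10 * 3 :=
      mul_le_mul_of_nonneg_left (by linarith) (by linarith)
    nlinarith

def Inv (r a b a' b' n : ℝ) : Prop :=
  0 < a ∧ 0 < b ∧ Inv0 r (a / b) ((5 - r) / 10 * n - b' / b) ((a' * b - a * b') / b ^ 2)

theorem inv_dot {r : ℝ} (hr : r ^ 2 = 5) : Inv r 1 1 0 0 1 := by
  refine ⟨one_pos, one_pos, ?_⟩
  have h5 : r ≤ 5 := by nlinarith
  simp only [Inv0]
  refine ⟨by norm_num, by norm_num, by norm_num, by norm_num, by norm_num; linarith, ?_⟩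
  nlinarith

theorem inv_step {r a b a' b' n c d c' d' k : ℝ} (hr : r ^ 2 = 5) (hr1 : 2 < r) (hr2 : r < 3)
    (h1 : Inv r a b a' b' n) (h2 : Inv r c d c' d' k) :
    Inv r (a * c + b * d) (b * c) (a' * c + a * c' + b * d + b' * d + b * d') (b' * c + b * c')
      (n + k) := by
  obtain ⟨ha, hb, h1⟩ := h1
  obtain ⟨hc, hd, e1, e2, e3, e4, e5, e6⟩ := h2
  refine ⟨by positivity, by positivity, ?_⟩
  set s := c / d with hs
  set v := (5 - r) / 10 * k - d' / d with hv
  set m := (c' * d - c * d') / d ^ 2 with hm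
  have hs0 : 0 < s := by linarith
  have key := inv0_step (ρ := 1 / s) (u := v - m / s) (η := m / s) hr hr1 hr2 h1 (by positivity)
    (by rw [div_le_one hs0]; exact e1)
    (by rw [sub_nonneg, div_le_iff₀ hs0]; exact e5) (by positivity)
    (by rw [div_le_one hs0]; linarith)
    (by
      have : (v - m / s) * ((r + 1) / 2 + 1 / s) + 1 / s * (m / s) - (5 + r) / 10 * (1 / s)
          = ((r + 1) / 2 / s) * (v * (s + (r - 1) / 2) - m - r / 5)
            + (5 - r ^ 2) * (v / 4 - 1 / 10) / s := by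
        field_simp; ring
      have h0 : 0 ≤ ((r + 1) / 2 / s) * (v * (s + (r - 1) / 2) - m - r / 5) :=
        mul_nonneg (by positivity) (by linarith)
      rw [hr] at this
      simp only [sub_self, zero_mul, zero_div, add_zero] at this
      linarith)
  convert key using 1
  · rw [hs]; field_simp
  · rw [hs, hv, hm]; field_simp; ring
  · rw [hs, hm]; field_simp; ring

namespace RT

theorem inv_tree {r : ℝ} (hr : r ^ 2 = 5) (hr1 : 2 < r) (hr2 : r < 3) (t : RT) :
    Inv r (t.f.eval 1) (t.p.eval 1) ((derivative t.f).eval 1) ((derivative t.p).eval 1)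
      (2 * t.size - 1) := by
  induction t with
  | dot =>
    have := inv_dot hr
    simp only [f_dot, p_dot, size]
    norm_num
    exact this
  | graft a b iha ihb =>
    have := inv_step hr hr1 hr2 iha (inv_step hr hr1 hr2 (inv_dot hr) ihb)
    convert this using 1
    · simp [f_graft, g]
    · simp [p_graft, g]
    · simp [f_graft, g]; ring
    · simp only [p_graft, g, derivative_mul, derivative_add, derivative_X, eval_add, eval_mul,
        eval_X, eval_one]
      ring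
    · simp [size]; ring

theorem mean_lt (t : RT) :
    (derivative t.f).eval 1 < (1 - 1 / Real.sqrt 5) * t.size * t.f.eval 1 := by
  have hr : Real.sqrt 5 ^ 2 = 5 := Real.sq_sqrt (by norm_num)
  have h0 : 0 ≤ Real.sqrt 5 := Real.sqrt_nonneg 5
  have hr1 : 2 < Real.sqrt 5 := by nlinarith
  have hr2 : Real.sqrt 5 < 3 := by nlinarith
  obtain ⟨ha, hb, -, -, -, -, e5, -⟩ := inv_tree hr hr1 hr2 t
  set r := Real.sqrt 5
  have e : 1 / r = r / 5 := by field_simp; linarith
  rw [e]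
  set a := t.f.eval 1
  set b := t.p.eval 1
  set a' := (derivative t.f).eval 1
  set b' := (derivative t.p).eval 1
  have : ((5 - r) / 10 * (2 * t.size - 1) - b' / b) * (a / b) - (a' * b - a * b') / b ^ 2
      = ((5 - r) / 10 * (2 * t.size - 1) * a - a') / b := by
    field_simp; ring
  have h1 : 0 ≤ ((5 - r) / 10 * (2 * t.size - 1) * a - a') / b := by linarith
  have h2 : 0 ≤ (5 - r) / 10 * (2 * t.size - 1) * a - a' := by
    have := mul_nonneg h1 hb.le
    rwa [div_mul_cancel₀ _ hb.ne'] at this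
  have h3 : 0 < (5 - r) / 10 * a := mul_pos (by linarith) ha
  nlinarith

end RT

end Pool.Agent.H75Z.Peak
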