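import Pool.Agent.H75Z.PeakPoly

set_option autoImplicit false
set_option maxHeartbeats 400000
set_option linter.unusedSimpArgs false

namespace Pool.Agent.H75Z.Peak

open Polynomial

namespace RT

noncomputable def cap : RT → ℝ
  | dot => 3 / 4
  | graft _ _ => 2

noncomputable def Cap : RT → ℝ
  | dot => 0
  | graft a b => a.Cap + b.cap

theorem cap_nonneg (t : RT) : 0 ≤ t.cap := by cases t <;> simp [cap]; norm_num

theorem Cap_nonneg (t : RT) : 0 ≤ t.Cap := by
  induction t with
  | dot => simp [Cap]
  | graft a b iha _ => simp only [Cap]; exact add_nonneg iha (cap_nonneg b)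

theorem cap_of_ne {t : RT} (h : t ≠ dot) : t.cap = 2 := by
  cases t with
  | dot => exact absurd rfl h
  | graft _ _ => rfl

theorem coneC {c : ℝ} (hc : 0 ≤ c) : Cone 0 (C c) := cone_C hc le_rfl

theorem branch (b : RT) : KC b.size (X * (4 * b.S1 + 3 * b.f - C b.cap * b.g)) := by
  cases b with
  | dot =>
    have : X * (4 * dot.S1 + 3 * dot.f - C dot.cap * dot.g)
        = (C (3 / 4 : ℝ) * X) * (C 3 - X) := by
      have h4 : C (3 / 4 : ℝ) * 4 = 3 := by
        rw [show (4 : ℝ[X]) = C 4 from rfl, ← C_mul]; norm_num; rfl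
      rw [S1_dot, g, f_dot, p_dot, cap, show C (3 : ℝ) = 3 from rfl]
      linear_combination (-X) * h4
    rw [this]
    exact KC.cone_mul' ((coneC (by norm_num)).mul cone_X) KC_three (by simp [size])
  | graft a b =>
    have h3 : C (1 / 3 : ℝ) * 3 = 1 := by
      rw [show (3 : ℝ[X]) = C 3 from rfl, ← C_mul]; norm_num
    have : X * (4 * (graft a b).S1 + 3 * (graft a b).f - C (graft a b).cap * (graft a b).g)
        = (C (1 / 3 : ℝ) * X * (graft a b).p) * (C 3 - X)
          + X * b.g * (C 4 * a.S1 + a.C1 + a.C2)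
          + X * X * a.p * (C 4 * b.S1 + C (1 / 3 : ℝ) * C 10 * (b.C1 + b.C2))
          + (C (1 / 3 : ℝ) * C 5 * X * X * a.p * b.p) * (C 2 - X) := by
      rw [g.eq_1 (graft a b), f_eq (graft a b), S1_graft, C1_graft, C2_graft, p_graft, cap,
        show C (2 : ℝ) = 2 from rfl, show C (3 : ℝ) = 3 from rfl, show C (4 : ℝ) = 4 from rfl,
        show C (5 : ℝ) = 5 from rfl, show C (10 : ℝ) = 10 from rfl, g.eq_1 b, f_eq b]
      linear_combination (-(X * a.p * (b.p + b.C1 + b.C2 + X * b.p))
        - 3 * X * X * a.p * (b.p + b.C1 + b.C2) + 2 * X * X * X * a.p * b.p) * h3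
    rw [this]
    have pa := cone_p a
    have pb := cone_p b
    have c13 : Cone 0 (C (1 / 3 : ℝ)) := coneC (by norm_num)
    have c4 : Cone 0 (C (4 : ℝ)) := coneC (by norm_num)
    have c5 : Cone 0 (C (5 : ℝ)) := coneC (by norm_num)
    have c10 : Cone 0 (C (10 : ℝ)) := coneC (by norm_num)
    refine (((KC.cone_mul' ((c13.mul cone_X).mul (cone_p _)) KC_three ?_).add
      (Cone.kc ((cone_X.mul (cone_g b)).mul' (((c4.mul' (cone_S1 a) (K := a.size) ?_).add
        (cone_C1 a)).add ((cone_C2 a).mono ?_)) ?_))).add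
      (Cone.kc (((cone_X.mul cone_X).mul pa).mul' ((c4.mul' (cone_S1 b) (K := b.size) ?_).add
        ((c13.mul c10).mul' ((cone_C1 b).add ((cone_C2 b).mono ?_)) (K := b.size) ?_)) ?_))).add
      (KC.cone_mul' (((((c13.mul c5).mul cone_X).mul cone_X).mul pa).mul pb) KC_two ?_)
    all_goals first | omega | (simp only [size]; push_cast; omega)

theorem kc_root (t : RT) :
    KC (t.size - 1) (4 * t.S1 - t.C1 - t.C2 - C t.Cap * X * t.p) := by
  induction t with
  | dot =>
    simp only [S1_dot, C1_dot, C2_dot, Cap]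
    simpa using (Cone.zero).kc
  | graft a b iha _ =>
    have : 4 * (graft a b).S1 - (graft a b).C1 - (graft a b).C2
        - C (graft a b).Cap * X * (graft a b).p
        = b.g * (4 * a.S1 - a.C1 - a.C2 - C a.Cap * X * a.p)
          + a.p * (X * (4 * b.S1 + 3 * b.f - C b.cap * b.g)) := by
      rw [S1_graft, C1_graft, C2_graft, p_graft, Cap, C_add, f_eq b]; ring
    rw [this]
    refine (KC.cone_mul' (cone_g b) iha ?_).add (KC.cone_mul' (cone_p a) (branch b) ?_)
    all_goals (simp only [size]; push_cast; omega)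

def Good (t : RT) : Prop := ∀ k : ℕ, 2 * (k + 1) ≤ t.size → t.P.coeff k ≤ t.P.coeff (k + 1)

theorem good_of_cap (t : RT) (h : 4 ≤ t.Cap) : t.Good := by
  intro k hk
  have : t.P = (t.W + (t.C1 + t.C2)) + (4 * t.S1 - t.C1 - t.C2 - C t.Cap * X * t.p)
      + C (t.Cap - 4) * X * t.p := by
    rw [P, C_sub, show C (4 : ℝ) = 4 from rfl]; ring
  have hK : KC (t.size - 1) t.P := by
    rw [this]
    exact ((cone_W t).2.1.kc.add (kc_root t)).add
      (Cone.kc (((coneC (by linarith)).mul cone_X).mul' (cone_p t) (by omega)))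
  exact hK.coeff_le k (by omega)

structure Same (t s : RT) : Prop where
  p : t.p = s.p
  f : t.f = s.f
  S1 : t.S1 = s.S1
  S2 : t.S2 = s.S2
  W : t.W = s.W
  Wh : t.Wh = s.Wh
  size : t.size = s.size

theorem Same.refl (t : RT) : Same t t := ⟨rfl, rfl, rfl, rfl, rfl, rfl, rfl⟩

theorem Same.trans {t s u : RT} (h : Same t s) (k : Same s u) : Same t u :=
  ⟨h.p.trans k.p, h.f.trans k.f, h.S1.trans k.S1, h.S2.trans k.S2, h.W.trans k.W,
    h.Wh.trans k.Wh, h.size.trans k.size⟩

theorem Same.graft_left {a a' : RT} (h : Same a a') (b : RT) : Same (graft a b) (graft a' b) := by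
  refine ⟨?_, ?_, ?_, ?_, ?_, ?_, ?_⟩
  · rw [p_graft, p_graft, h.p]
  · rw [f_graft, f_graft, h.p, h.f]
  · rw [S1_graft, S1_graft, h.p, h.S1]
  · rw [S2_graft, S2_graft, h.p, h.S2]
  · simp only [W_graft, Xc, g, h.p, h.f, h.S1, h.S2, h.W, h.Wh]
  · rw [Wh_graft, Wh_graft, h.p, h.Wh]
  · simp only [RT.size, h.size]

theorem same_swap (a b c : RT) : Same (graft (graft a b) c) (graft (graft a c) b) := by
  refine ⟨?_, ?_, ?_, ?_, ?_, ?_, ?_⟩
  · simp only [p_graft]; ring
  · simp only [f_graft, p_graft]; ring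
  · simp only [S1_graft, p_graft]; ring
  · simp only [S2_graft, p_graft]; ring
  · simp only [W_graft, Wh_graft, Xc, g, S1_graft, S2_graft, f_graft, p_graft]; ring
  · simp only [Wh_graft, p_graft]; ring
  · simp only [RT.size]; ring

theorem Same.good {t s : RT} (h : Same t s) (hs : s.Good) : t.Good := by
  intro k hk
  have : t.P = s.P := by simp only [P, h.W, h.S1, h.p]
  rw [this]
  exact hs k (h.size ▸ hk)

theorem good_rotate {a b : RT} (h : (graft a b).Good) : (graft b a).Good := by
  intro k hk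
  have : (graft b a).P = (graft a b).P := by
    simp only [P, W_graft, Xc, g, S1_graft, p_graft]; ring
  rw [this]
  exact h k (by simp only [size] at hk ⊢; omega)

def star : ℕ → RT
  | 0 => dot
  | j + 1 => graft (star j) dot

theorem size_star (j : ℕ) : (star j).size = j + 1 := by
  induction j with
  | zero => rfl
  | succ j ih => simp only [star, size, ih]

theorem Cap_star (j : ℕ) : (star j).Cap = 3 / 4 * j := by
  induction j with
  | zero => simp [star, Cap]
  | succ j ih => simp only [star, Cap, ih, cap]; push_cast; ring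

theorem decomp (t : RT) : (∃ j, t = star j) ∨
    ∃ a b, b ≠ dot ∧ Same t (graft a b) ∧ t.Cap = a.Cap + 2 := by
  induction t with
  | dot => exact Or.inl ⟨0, rfl⟩
  | graft a b iha _ =>
    by_cases hb : b = dot
    · subst hb
      rcases iha with ⟨j, rfl⟩ | ⟨a', b', hb', hs, hc⟩
      · exact Or.inl ⟨j + 1, rfl⟩
      · refine Or.inr ⟨graft a' dot, b', hb', (hs.graft_left _).trans (same_swap _ _ _), ?_⟩
        simp only [Cap, hc]; ring
    · exact Or.inr ⟨a, b, hb, Same.refl _, by simp only [Cap, cap_of_ne hb]⟩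

theorem good_explicit (t : RT) (a0 a1 a2 a3 : ℝ) (Q : ℝ[X])
    (h : t.P = C a0 + C a1 * X + C a2 * X ^ 2 + C a3 * X ^ 3 + X ^ 4 * Q) (hs : t.size ≤ 7)
    (h1 : a0 ≤ a1) (h2 : 4 ≤ t.size → a1 ≤ a2) (h3 : 6 ≤ t.size → a2 ≤ a3) : t.Good := by
  intro k hk
  have hk' : k ≤ 2 := by omega
  rw [h]
  interval_cases k
  · simpa [coeff_X, coeff_X_pow, coeff_X_pow_mul', coeff_C] using h1
  · simpa [coeff_X, coeff_X_pow, coeff_X_pow_mul', coeff_C] using h2 (by omega)
  · simpa [coeff_X, coeff_X_pow, coeff_X_pow_mul', coeff_C] using h3 (by omega)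

theorem good_star (j : ℕ) (hj : 2 ≤ j) : (star j).Good := by
  by_cases h6 : 6 ≤ j
  · apply good_of_cap
    rw [Cap_star]
    have : (6 : ℝ) ≤ j := by exact_mod_cast h6
    linarith
  · have : j ≤ 5 := by omega
    interval_cases j
    · refine good_explicit _ 2 6 0 (-4) 0 ?_ (by simp [size_star]) (by norm_num)
        (by simp [size_star]) (by simp [size_star])
      simp only [star, P, W_graft, Wh_graft, Xc, g, S1_graft, S2_graft, f_graft, p_graft, W_dot,
        Wh_dot, S1_dot, S2_dot, f_dot, p_dot, map_ofNat, map_neg, map_zero]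
      ring
    · refine good_explicit _ 3 14 15 0 (-4) ?_ (by simp [size_star]) (by norm_num)
        (by norm_num) (by simp [size_star])
      simp only [star, P, W_graft, Wh_graft, Xc, g, S1_graft, S2_graft, f_graft, p_graft, W_dot,
        Wh_dot, S1_dot, S2_dot, f_dot, p_dot, map_ofNat, map_neg, map_zero]
      ring
    · refine good_explicit _ 4 24 44 28 (-4 * X) ?_ (by simp [size_star]) (by norm_num)
        (by norm_num) (by simp [size_star])
      simp only [star, P, W_graft, Wh_graft, Xc, g, S1_graft, S2_graft, f_graft, p_graft, W_dot,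
        Wh_dot, S1_dot, S2_dot, f_dot, p_dot, map_ofNat, map_neg, map_zero]
      ring
    · refine good_explicit _ 5 36 90 100 (45 - 4 * X ^ 2) ?_ (by simp [size_star]) (by norm_num)
        (by norm_num) (by norm_num)
      simp only [star, P, W_graft, Wh_graft, Xc, g, S1_graft, S2_graft, f_graft, p_graft, W_dot,
        Wh_dot, S1_dot, S2_dot, f_dot, p_dot, map_ofNat, map_neg, map_zero]
      ring

theorem good_double (i j : ℕ) : (graft (star (i + 1)) (star (j + 1))).Good := by
  have key : ∀ i j : ℕ, 2 ≤ i → (graft (star (i + 1)) (star (j + 1))).Good := by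
    intro i j hi
    apply good_of_cap
    have : (2 : ℝ) ≤ i := by exact_mod_cast hi
    have e : (star (j + 1)).cap = 2 := rfl
    rw [Cap, Cap_star, e]
    push_cast
    linarith
  by_cases hi : 2 ≤ i
  · exact key i j hi
  by_cases hj : 2 ≤ j
  · exact good_rotate (key j i hj)
  have hi' : i ≤ 1 := by omega
  have hj' : j ≤ 1 := by omega
  interval_cases i <;> interval_cases j
  · refine good_explicit _ 3 16 20 0 (-4) ?_ (by simp [size, size_star]) (by norm_num)
      (by norm_num) (by simp [size, size_star])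
    simp only [star, P, W_graft, Wh_graft, Xc, g, S1_graft, S2_graft, f_graft, p_graft, W_dot,
      Wh_dot, S1_dot, S2_dot, f_dot, p_dot, map_ofNat, map_neg, map_zero]
    ring
  · refine good_explicit _ 4 28 58 38 (-4 * X) ?_ (by simp [size, size_star]) (by norm_num)
      (by norm_num) (by simp [size, size_star])
    simp only [star, P, W_graft, Wh_graft, Xc, g, S1_graft, S2_graft, f_graft, p_graft, W_dot,
      Wh_dot, S1_dot, S2_dot, f_dot, p_dot, map_ofNat, map_neg, map_zero]
    ring
  · refine good_explicit _ 4 28 58 38 (-4 * X) ?_ (by simp [size, size_star]) (by norm_num)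
      (by norm_num) (by simp [size, size_star])
    simp only [star, P, W_graft, Wh_graft, Xc, g, S1_graft, S2_graft, f_graft, p_graft, W_dot,
      Wh_dot, S1_dot, S2_dot, f_dot, p_dot, map_ofNat, map_neg, map_zero]
    ring
  · refine good_explicit _ 5 44 126 148 (65 - 4 * X ^ 2) ?_ (by simp [size, size_star])
      (by norm_num) (by norm_num) (by norm_num)
    simp only [star, P, W_graft, Wh_graft, Xc, g, S1_graft, S2_graft, f_graft, p_graft, W_dot,
      Wh_dot, S1_dot, S2_dot, f_dot, p_dot, map_ofNat, map_neg, map_zero]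
    ring

theorem good_two {a b : RT} (ha : a ≠ dot) (hb : b ≠ dot) : (graft a b).Good := by
  rcases decomp a with ⟨i, rfl⟩ | ⟨a', b', _, _, hc⟩
  · rcases decomp b with ⟨j, rfl⟩ | ⟨a', b', _, _, hc⟩
    · rcases i with _ | i
      · exact absurd rfl ha
      rcases j with _ | j
      · exact absurd rfl hb
      exact good_double i j
    · apply good_rotate
      apply good_of_cap
      have := Cap_nonneg a'
      rw [Cap, cap_of_ne ha, hc]; linarith
  · apply good_of_cap
    have := Cap_nonneg a'
    rw [Cap, cap_of_ne hb, hc]; linarith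

theorem good (t : RT) (h : 3 ≤ t.size) : t.Good := by
  rcases decomp t with ⟨j, rfl⟩ | ⟨a, b, hb, hs, -⟩
  · exact good_star j (by rw [size_star] at h; omega)
  apply hs.good
  by_cases ha : a = dot
  · subst ha
    apply good_rotate
    rcases decomp b with ⟨j, rfl⟩ | ⟨a', b', hb', hs', -⟩
    · refine good_star (j + 1) ?_
      have := hs.size
      simp only [size, size_star] at this
      omega
    · exact ((hs'.graft_left _).trans (same_swap _ _ _)).good (good_two (by simp) hb')
  · exact good_two ha hb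

end RT

end Pool.Agent.H75Z.Peak
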