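import Mathlib

set_option autoImplicit false
set_option maxHeartbeats 400000

namespace Pool.Agent.H75Z.Peak

open Polynomial Finset

variable {ι : Type} [DecidableEq ι]

noncomputable def Qp (S : Finset ι) (t : ι → ℝ) : ℝ[X] := ∏ i ∈ S, (X + C (t i))

theorem Qp_insert {S : Finset ι} {l : ι} (hl : l ∉ S) (t : ι → ℝ) :
    Qp (insert l S) t = (X + C (t l)) * Qp S t := prod_insert hl

theorem coeff_lin_zero (c : ℝ) (q : ℝ[X]) : ((X + C c) * q).coeff 0 = c * q.coeff 0 := by
  simp [add_mul]

theorem coeff_lin_succ (c : ℝ) (q : ℝ[X]) (k : ℕ) :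
    ((X + C c) * q).coeff (k + 1) = q.coeff k + c * q.coeff (k + 1) := by
  simp [add_mul, coeff_X_mul]

theorem Qp_props (S : Finset ι) (t : ι → ℝ) (ht : ∀ i ∈ S, 0 < t i) :
    (∀ k, 0 ≤ (Qp S t).coeff k) ∧ (∀ k ≤ S.card, 0 < (Qp S t).coeff k) ∧
    (∀ i j, i ≤ j → (Qp S t).coeff i * (Qp S t).coeff (j + 2) ≤
      (Qp S t).coeff (i + 1) * (Qp S t).coeff (j + 1)) := by
  induction S using Finset.induction_on with
  | empty =>
    simp only [Qp, prod_empty, card_empty, coeff_one]
    refine ⟨fun k => by split_ifs <;> norm_num, fun k hk => by simp [show k = 0 by omega], ?_⟩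
    intro i j _; simp
  | insert l S hl ih =>
    obtain ⟨h0, h1, h2⟩ := ih (fun i hi => ht i (mem_insert_of_mem hi))
    have hc : 0 < t l := ht l (mem_insert_self _ _)
    rw [Qp_insert hl, card_insert_of_notMem hl]
    set q := Qp S t
    set c := t l
    refine ⟨?_, ?_, ?_⟩
    · rintro (_ | k)
      · rw [coeff_lin_zero]; exact mul_nonneg hc.le (h0 _)
      · rw [coeff_lin_succ]; exact add_nonneg (h0 _) (mul_nonneg hc.le (h0 _))
    · rintro (_ | k) hk
      · rw [coeff_lin_zero]; exact mul_pos hc (h1 _ (by omega))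
      · rw [coeff_lin_succ]
        exact add_pos_of_pos_of_nonneg (h1 _ (by omega)) (mul_nonneg hc.le (h0 _))
    · rintro (_ | i) j hij
      · rw [coeff_lin_zero, coeff_lin_succ, coeff_lin_succ, coeff_lin_succ]
        have a := h2 0 j hij
        have b := mul_nonneg (h0 0) (h0 j)
        have d := mul_nonneg hc.le (mul_nonneg (h0 (0 + 1)) (h0 j))
        have e := mul_le_mul_of_nonneg_left a (mul_nonneg hc.le hc.le)
        simp only [show j + 1 + 1 = j + 2 from rfl]
        nlinarith
      · obtain ⟨j, rfl⟩ : ∃ j', j = j' + 1 := ⟨j - 1, by omega⟩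
        rw [coeff_lin_succ, coeff_lin_succ, coeff_lin_succ, coeff_lin_succ]
        have a := h2 (i + 1) (j + 1) hij
        have b := h2 i j (by omega)
        have d : q.coeff i * q.coeff (j + 1 + 2) ≤ q.coeff (i + 1 + 1) * q.coeff (j + 1) := by
          have d1 := h2 i (j + 1) (by omega)
          rcases Nat.lt_or_ge i j with hlt | hge
          · exact d1.trans (h2 (i + 1) j hlt)
          · have : i = j := by omega
            subst this
            rw [mul_comm (q.coeff (i + 1 + 1))]; exact d1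
        have e := mul_le_mul_of_nonneg_left a (mul_nonneg hc.le hc.le)
        have f := mul_le_mul_of_nonneg_left d hc.le
        simp only [show j + 1 + 1 + 1 = j + 1 + 2 from rfl, show j + 1 + 1 = j + 2 from rfl] at *
        nlinarith

theorem Qp_erase {S : Finset ι} {l : ι} (hl : l ∈ S) (t : ι → ℝ) :
    Qp S t = (X + C (t l)) * Qp (S.erase l) t := (mul_prod_erase S _ hl).symm

theorem Qp_derivative (S : Finset ι) (t : ι → ℝ) :
    derivative (Qp S t) = ∑ l ∈ S, Qp (S.erase l) t := by
  simp [Qp, derivative_prod_finset]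

theorem darroch (S : Finset ι) (t : ι → ℝ) (ht : ∀ i ∈ S, 0 < t i) (k : ℕ)
    (hk : ∑ l ∈ S, 1 / (1 + t l) < k + 1) (hS : k + 2 ≤ S.card) :
    (Qp S t).coeff (k + 2) ≤ (Qp S t).coeff (k + 1) := by
  by_contra hlt
  push Not at hlt
  have hq := (Qp_props S t ht).2.1 (k + 1) (by omega)
  have h1 : ∀ l ∈ S, (Qp (S.erase l) t).coeff k ≤ 1 / (1 + t l) * (Qp S t).coeff (k + 1) := by
    intro l hl
    have hc := ht l hl
    obtain ⟨h0, hp, h2⟩ := Qp_props (S.erase l) t (fun i hi => ht i (mem_of_mem_erase hi))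
    rw [Qp_erase hl, coeff_lin_succ, coeff_lin_succ] at hlt
    rw [Qp_erase hl, coeff_lin_succ]
    set x := Qp (S.erase l) t
    have hle : x.coeff k ≤ x.coeff (k + 1) := by
      by_contra hgt
      push Not at hgt
      have a := h2 k k le_rfl
      have hk0 : 0 < x.coeff k := lt_of_le_of_lt (h0 _) hgt
      have b : x.coeff k * x.coeff (k + 2) ≤ x.coeff k * x.coeff (k + 1) :=
        a.trans (mul_le_mul_of_nonneg_right hgt.le (h0 _))
      have c := le_of_mul_le_mul_left b hk0
      have d := mul_le_mul_of_nonneg_left c hc.le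
      simp only [show k + 1 + 1 = k + 2 from rfl] at hlt
      linarith
    rw [div_mul_eq_mul_div, one_mul, le_div_iff₀ (by linarith)]
    nlinarith
  have h2 : (Qp S t).coeff (k + 1) * (k + 1) = ∑ l ∈ S, (Qp (S.erase l) t).coeff k := by
    rw [← coeff_derivative, Qp_derivative, finset_sum_coeff]
  have h3 := sum_le_sum h1
  rw [← h2, ← sum_mul] at h3
  nlinarith

theorem Qp_eval_pos (S : Finset ι) (t : ι → ℝ) (ht : ∀ i ∈ S, 0 < t i) :
    0 < (Qp S t).eval 1 := by
  rw [Qp, eval_prod]
  exact prod_pos fun i hi => by simp only [eval_add, eval_X, eval_C]; linarith [ht i hi]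

theorem Qp_mean (S : Finset ι) (t : ι → ℝ) (ht : ∀ i ∈ S, 0 < t i) :
    (derivative (Qp S t)).eval 1 = (∑ l ∈ S, 1 / (1 + t l)) * (Qp S t).eval 1 := by
  rw [Qp_derivative, eval_finset_sum, sum_mul]
  refine sum_congr rfl fun l hl => ?_
  have := ht l hl
  rw [Qp_erase hl t]
  simp only [eval_mul, eval_add, eval_X, eval_C]
  field_simp

theorem poly_ext_Ioi {p q : ℝ[X]} (M : ℝ) (h : ∀ y, M < y → p.eval y = q.eval y) : p = q :=
  eq_of_infinite_eval_eq _ _ ((Set.Ioi_infinite M).mono fun y hy => h y hy)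

theorem spectral {n : Type} [Fintype n] [DecidableEq n] (A : Matrix n n ℝ) (hA : A.IsHermitian)
    (P φ : ℝ[X])
    (H1 : ∀ y, 0 < y → 4 * A.charpoly.eval (2 * y) = -2 ^ Fintype.card n * P.eval y)
    (H2 : ∀ y, 0 < y → ∃ z : n → ℝ, (∀ u, ∑ v, A u v * z v - 2 * y * z u = P.eval y) ∧
      ∑ v, z v = 2 * φ.eval y) :
    ∃ s w : n → ℝ, P = C (-4) * ∏ i, (X - C (s i)) ∧
      φ = ∑ i, C (w i ^ 2) * ∏ j ∈ univ.erase i, (X - C (s j)) := by
  let s : n → ℝ := fun i => hA.eigenvalues i / 2
  let U : Matrix n n ℝ := hA.eigenvectorUnitary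
  let w : n → ℝ := fun i => ∑ u, U u i
  have hP : ∀ y, 0 < y → P.eval y = -4 * ∏ i, (y - s i) := by
    intro y hy
    have := H1 y hy
    rw [hA.charpoly_eq, eval_prod] at this
    have e : ∏ i, eval (2 * y) (X - C (RCLike.ofReal (hA.eigenvalues i) : ℝ))
        = 2 ^ Fintype.card n * ∏ i, (y - s i) := by
      rw [← card_univ, ← prod_const, ← prod_mul_distrib]
      refine prod_congr rfl fun i _ => ?_
      simp only [eval_sub, eval_X, eval_C, s, RCLike.ofReal_real_eq_id, id]
      ring
    rw [e] at this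
    have h2 : (2 : ℝ) ^ Fintype.card n ≠ 0 := by positivity
    apply mul_left_cancel₀ h2
    linarith
  refine ⟨s, w, poly_ext_Ioi 0 fun y hy => ?_, poly_ext_Ioi (∑ i, |s i|) fun y hy => ?_⟩
  · rw [hP y hy]; simp [eval_prod]
  · have hy0 : 0 < y := lt_of_le_of_lt (sum_nonneg fun i _ => abs_nonneg _) hy
    have hys : ∀ i, y - s i ≠ 0 := fun i => by
      have h1 : |s i| ≤ ∑ i, |s i| := single_le_sum (f := fun i => |s i|)
        (fun i _ => abs_nonneg _) (mem_univ i)
      have := le_abs_self (s i)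
      linarith
    obtain ⟨z, hz, hsum⟩ := H2 y hy0
    have hsymm : ∀ u v, A u v = A v u := fun u v => by
      have := hA.apply v u
      simpa using this
    have heig : ∀ i v, ∑ u, A v u * U u i = 2 * s i * U v i := by
      intro i v
      have := congrFun (hA.mulVec_eigenvectorBasis i) v
      simp only [Matrix.mulVec, dotProduct, Pi.smul_apply, smul_eq_mul] at this
      have e : 2 * s i = hA.eigenvalues i := by simp only [s]; ring
      rw [e]
      exact this
    have hζ : ∀ i, ∑ u, U u i * z u = 2 * w i * ∏ j ∈ univ.erase i, (y - s j) := by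
      intro i
      have e1 : ∑ u, U u i * (∑ v, A u v * z v - 2 * y * z u) = P.eval y * w i := by
        simp only [hz, w, mul_sum]
        exact sum_congr rfl fun u _ => by ring
      have e2 : ∑ u, U u i * (∑ v, A u v * z v - 2 * y * z u)
          = (2 * s i - 2 * y) * ∑ u, U u i * z u := by
        simp only [mul_sub, sum_sub_distrib, mul_sum, sub_mul]
        congr 1
        · rw [sum_comm]
          refine sum_congr rfl fun v _ => ?_
          rw [← mul_assoc, ← heig i v, sum_mul]
          exact sum_congr rfl fun u _ => by rw [hsymm u v]; ring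
        · exact sum_congr rfl fun u _ => by ring
      rw [e2, hP y hy0, ← mul_prod_erase univ _ (mem_univ i)] at e1
      apply mul_left_cancel₀ (hys i)
      linarith
    have hU : ∀ u v, ∑ i, U u i * U v i = if u = v then 1 else 0 := by
      intro u v
      have h1 : U * star U = 1 := Unitary.coe_mul_star_self hA.eigenvectorUnitary
      have := congrFun (congrFun h1 u) v
      simpa [Matrix.mul_apply, Matrix.one_apply] using this
    have hpar : ∑ i, w i * ∑ v, U v i * z v = ∑ v, z v := by
      calc ∑ i, w i * ∑ v, U v i * z v = ∑ i, ∑ u, ∑ v, U u i * U v i * z v := by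
            refine sum_congr rfl fun i _ => ?_
            simp only [w, sum_mul, mul_sum, mul_assoc]
            rw [sum_comm]
        _ = ∑ u, ∑ v, (∑ i, U u i * U v i) * z v := by
            rw [sum_comm]
            refine sum_congr rfl fun u _ => ?_
            rw [sum_comm]
            simp only [sum_mul]
        _ = ∑ v, z v := by simp [hU]
    simp only [hζ] at hpar
    rw [hsum] at hpar
    simp only [eval_finset_sum, eval_mul, eval_C, eval_prod, eval_sub, eval_X]
    have : ∑ i, w i * (2 * w i * ∏ j ∈ univ.erase i, (y - s j))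
        = 2 * ∑ i, w i ^ 2 * ∏ j ∈ univ.erase i, (y - s j) := by
      rw [mul_sum]; exact sum_congr rfl fun i _ => by ring
    linarith

theorem factor {n : Type} [Fintype n] [DecidableEq n] (hn : 2 ≤ Fintype.card n) (s w : n → ℝ)
    (φ : ℝ[X]) (hφ : φ = ∑ i, C (w i ^ 2) * ∏ j ∈ univ.erase i, (X - C (s j)))
    (hpos : ∀ y, 0 ≤ y → 0 < φ.eval y) :
    ∃ i0 : n, (∀ i ∈ univ.erase i0, 0 < -s i) ∧
      (∑ l ∈ univ.erase i0, 1 / (1 + -s l)) * φ.eval 1 ≤ (derivative φ).eval 1 := by
  have hne : (univ : Finset n).Nonempty := card_pos.1 (by rw [card_univ]; omega)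
  obtain ⟨i0, -, hi0⟩ := exists_max_image univ s hne
  have hne' : (univ.erase i0).Nonempty := card_pos.1 (by
    rw [card_erase_of_mem (mem_univ _), card_univ]; omega)
  obtain ⟨j0, hj0, hj⟩ := exists_max_image (univ.erase i0) s hne'
  have hneg : ∀ i ∈ univ.erase i0, 0 < -s i := by
    have : s j0 < 0 := by
      by_contra hge
      push Not at hge
      have h1 := hpos _ hge
      rw [hφ, eval_finset_sum, sum_eq_single j0] at h1
      · have hi : i0 ∈ univ.erase j0 := mem_erase.2 ⟨(mem_erase.1 hj0).1.symm, mem_univ _⟩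
        rw [← mul_prod_erase _ _ hi] at h1
        simp only [eval_mul, eval_C, eval_prod, eval_sub, eval_X] at h1
        have a1 : s j0 - s i0 ≤ 0 := sub_nonpos.2 (hi0 _ (mem_univ _))
        have a2 : 0 ≤ ∏ j ∈ (univ.erase j0).erase i0, (s j0 - s j) :=
          prod_nonneg fun j hj' => sub_nonneg.2 (hj j (mem_erase.2 ⟨(mem_erase.1 hj').1,
            mem_univ _⟩))
        have := mul_nonpos_of_nonneg_of_nonpos (sq_nonneg (w j0))
          (mul_nonpos_of_nonpos_of_nonneg a1 a2)
        linarith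
      · intro i _ hi
        have hi' : j0 ∈ univ.erase i := mem_erase.2 ⟨hi.symm, mem_univ _⟩
        rw [← mul_prod_erase _ _ hi']
        simp
      · simp
    intro i hi
    linarith [hj i hi]
  refine ⟨i0, hneg, ?_⟩
  set S := univ.erase i0 with hS
  set t : n → ℝ := fun i => -s i with ht
  set μ := ∑ l ∈ S, 1 / (1 + -s l) with hμ
  have hQ : ∀ T : Finset n, ∏ j ∈ T, (X - C (s j)) = Qp T t := fun T => by
    simp [Qp, ht, sub_eq_add_neg]
  have hφ' : φ = C (w i0 ^ 2) * Qp S t
      + ∑ l ∈ S, C (w l ^ 2) * ((X - C (s i0)) * Qp (S.erase l) t) := by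
    rw [hφ, ← add_sum_erase _ _ (mem_univ i0), hQ]
    congr 1
    refine sum_congr rfl fun l hl => ?_
    have hi : i0 ∈ univ.erase l := mem_erase.2 ⟨(mem_erase.1 hl).1.symm, mem_univ _⟩
    rw [← mul_prod_erase _ _ hi, hQ, erase_right_comm]
  rw [hφ']
  simp only [derivative_add, derivative_mul, derivative_C, zero_mul, zero_add, derivative_sum,
    eval_add, eval_mul, eval_C, eval_finset_sum, derivative_sub, derivative_X, sub_zero, one_mul,
    eval_sub, eval_X, mul_add, mul_sum]
  rw [Qp_mean S t hneg]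
  apply add_le_add
  · apply le_of_eq; simp only [hμ, ht]; ring
  · refine sum_le_sum fun l hl => ?_
    have hl' : ∀ i ∈ S.erase l, 0 < t i := fun i hi => hneg i (mem_of_mem_erase hi)
    rw [Qp_mean _ t hl']
    have e : ∑ i ∈ S.erase l, 1 / (1 + t i) = μ - 1 / (1 + -s l) := by
      rw [hμ, ← add_sum_erase S _ hl]; simp [ht]
    rw [e]
    have q0 := Qp_eval_pos _ t hl'
    have tl := hneg l hl
    have hle : s l ≤ s i0 := hi0 _ (mem_univ _)
    have h1 : (1 - s i0) * (1 / (1 + -s l)) ≤ 1 := by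
      rw [mul_one_div, div_le_one (by linarith)]; linarith
    have h2 := mul_le_mul_of_nonneg_left h1 (mul_nonneg (sq_nonneg (w l)) q0.le)
    nlinarith

end Pool.Agent.H75Z.Peak
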