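import Pool.Agent.H75Z.PeakLower
import Pool.Agent.H75Z.PeakGold
import Pool.Agent.H75Z.PeakSpec

set_option autoImplicit false
set_option maxHeartbeats 400000

namespace Pool.Agent.H75Z.Peak

open Polynomial Finset

namespace RT

theorem Dm_herm (t : RT) : t.Dm.IsHermitian := by
  ext u v
  simp [Dm, Matrix.conjTranspose_apply, D_symm t v u]

theorem coeff_rel (t : RT) (k : ℕ) :
    4 * (t.Dm.charpoly.coeff k * 2 ^ k) = -2 ^ t.size * t.P.coeff k := by
  have : C 4 * t.Dm.charpoly.comp (C 2 * X) = C (-2 ^ t.size) * t.P := by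
    refine poly_ext_Ioi 0 fun y hy => ?_
    simp only [eval_mul, eval_C, eval_comp, eval_X]
    exact (matrix_facts t hy).1
  have := congrArg (fun q => q.coeff k) this
  simpa only [coeff_C_mul, comp_C_mul_X_coeff] using this

theorem P_top (t : RT) : t.P.coeff (t.size - 1) = 0 := by
  haveI : Nonempty t.V := ⟨t.root⟩
  have h1 := Matrix.trace_eq_neg_charpoly_coeff t.Dm
  have h2 : t.Dm.trace = 0 := by simp [Matrix.trace, Dm, D_self]
  rw [h2, card_V] at h1
  have h3 := coeff_rel t (t.size - 1)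
  have h4 : t.Dm.charpoly.coeff (t.size - 1) = 0 := by linarith
  rw [h4] at h3
  have h5 : (2 : ℝ) ^ t.size ≠ 0 := by positivity
  simpa [h5] using h3

theorem upper (t : RT) (hn : 3 ≤ t.size) :
    (∀ k, k + 2 ≤ t.size → 0 ≤ t.P.coeff k) ∧
    ∀ k : ℕ, (1 - 1 / Real.sqrt 5) * t.size ≤ k → 1 ≤ k → k + 3 ≤ t.size →
      t.P.coeff (k + 1) ≤ t.P.coeff k := by
  obtain ⟨s, w, hP, hφ⟩ := spectral t.Dm (Dm_herm t) t.P t.f
    (fun y hy => by rw [card_V]; exact (matrix_facts t hy).1) (fun y hy => (matrix_facts t hy).2)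
  obtain ⟨i0, hneg, hmean⟩ := factor (by rw [card_V]; omega) s w t.f hφ
    (fun y hy => (pos_pf t hy).2)
  set S := univ.erase i0 with hS
  have hcard : S.card = t.size - 1 := by
    rw [hS, card_erase_of_mem (mem_univ _), card_univ, card_V]
  set τ : t.V → ℝ := fun i => -s i with hτ
  have hP' : t.P = C (-4) * ((X + C (-s i0)) * Qp S τ) := by
    rw [hP, ← mul_prod_erase _ _ (mem_univ i0)]
    simp [Qp, hτ, hS, sub_eq_add_neg]
  obtain ⟨h0, h1, h2⟩ := Qp_props S τ hneg
  have hμ : ∑ l ∈ S, 1 / (1 + τ l) < (1 - 1 / Real.sqrt 5) * t.size := by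
    have a := mean_lt t
    have b := (pos_pf t zero_le_one).2
    exact lt_of_mul_lt_mul_right (lt_of_le_of_lt hmean a) b.le
  have hd := darroch S τ hneg
  set q := Qp S τ
  set r := s i0
  have c0 : t.P.coeff 0 = 4 * (r * q.coeff 0) := by
    rw [hP', coeff_C_mul, coeff_lin_zero]; ring
  have cs : ∀ k, t.P.coeff (k + 1) = 4 * (r * q.coeff (k + 1) - q.coeff k) := fun k => by
    rw [hP', coeff_C_mul, coeff_lin_succ]; ring
  obtain ⟨m, hm⟩ : ∃ m, t.size = m + 3 := ⟨t.size - 3, by omega⟩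
  have top := P_top t
  rw [hm, show m + 3 - 1 = m + 1 + 1 from rfl, cs] at top
  have qm1 := h1 (m + 1) (by omega)
  have qm2 := h1 (m + 1 + 1) (by omega)
  have hr : 0 < r := by
    by_contra hle
    push Not at hle
    have := mul_nonpos_of_nonpos_of_nonneg hle qm2.le
    linarith
  have nonneg : ∀ k, k + 2 ≤ t.size → 0 ≤ t.P.coeff k := by
    rintro (_ | k) hk
    · rw [c0]; have := h0 0; positivity
    · rw [cs]
      have a := h2 k m (by omega)
      have e : q.coeff (m + 1) = r * q.coeff (m + 2) := by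
        simp only [show m + 1 + 1 = m + 2 from rfl] at top; linarith
      rw [e] at a
      have b : q.coeff k * q.coeff (m + 2) ≤ (r * q.coeff (k + 1)) * q.coeff (m + 2) := by
        linarith
      have := le_of_mul_le_mul_right b qm2
      linarith
  refine ⟨nonneg, fun k hk hk1 hk3 => ?_⟩
  obtain ⟨j, rfl⟩ : ∃ j, k = j + 1 := ⟨k - 1, by omega⟩
  have a := hd j (by push_cast at hk; linarith) (by omega)
  have b := h2 j j le_rfl
  have c := nonneg (j + 1) (by omega)
  have qp := h1 (j + 1) (by omega)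
  have d := mul_le_mul_of_nonneg_left a c
  apply le_of_mul_le_mul_right _ qp
  refine le_trans ?_ d
  rw [cs, cs]
  simp only [show j + 1 + 1 = j + 2 from rfl]
  nlinarith

end RT

theorem peak_of_mono (d : ℕ → ℝ) (N m M : ℕ) (hmN : m ≤ N) (hmM : m ≤ M)
    (hup : ∀ k, k + 1 ≤ m → d k ≤ d (k + 1))
    (hdown : ∀ k, M ≤ k → k + 1 ≤ N → d (k + 1) ≤ d k) :
    ∃ k, k ≤ N ∧ (∀ j, j ≤ N → d j ≤ d k) ∧ m ≤ k ∧ k ≤ M := by
  obtain ⟨k, hk, hmax⟩ := exists_max_image (Finset.Icc m (min M N)) d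
    ⟨m, by simp [hmN, hmM]⟩
  simp only [Finset.mem_Icc, le_min_iff] at hk hmax
  refine ⟨k, hk.2.2, fun j hj => ?_, hk.1, hk.2.1⟩
  by_cases h1 : j ≤ m
  · have : ∀ i, j + i ≤ m → d j ≤ d (j + i) := by
      intro i
      induction i with
      | zero => intro _; exact le_rfl
      | succ i ih => intro hi; exact (ih (by omega)).trans (hup _ (by omega))
    have e := this (m - j) (by omega)
    rw [show j + (m - j) = m by omega] at e
    exact e.trans (hmax m ⟨le_rfl, hmM, hmN⟩)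
  by_cases h2 : j ≤ M
  · exact hmax j ⟨by omega, h2, hj⟩
  · have : ∀ i, M + i ≤ N → d (M + i) ≤ d M := by
      intro i
      induction i with
      | zero => intro _; exact le_rfl
      | succ i ih => intro hi; exact (hdown (M + i) (by omega) (by omega)).trans (ih (by omega))
    have e := this (j - M) (by omega)
    rw [show M + (j - M) = j by omega] at e
    exact e.trans (hmax M ⟨hmM, le_rfl, by omega⟩)

theorem main (V : Type) [Fintype V] [DecidableEq V] (G : SimpleGraph V)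
    (hG : G.IsTree) (hn : 3 ≤ Fintype.card V) (d : ℕ → ℝ)
    (hd : ∀ k : ℕ, d k =
      (((|(Matrix.of fun i j : V => (G.dist i j : ℤ)).charpoly.coeff k|) : ℤ) : ℝ)
        / (2 : ℝ) ^ (Fintype.card V - k - 2)) :
    ∃ k : ℕ, k ≤ Fintype.card V - 2 ∧
      (∀ j : ℕ, j ≤ Fintype.card V - 2 → d j ≤ d k) ∧
      Fintype.card V / 2 ≤ k ∧
      k ≤ ⌈(1 - 1 / Real.sqrt 5) * (Fintype.card V : ℝ)⌉₊ := by
  obtain ⟨t, e, he⟩ := conv hG
  have hc : Fintype.card V = t.size := by rw [← t.card_V]; exact (Fintype.card_congr e).symm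
  have hchar : ∀ k, (((Matrix.of fun i j : V => (G.dist i j : ℤ)).charpoly.coeff k : ℤ) : ℝ)
      = t.Dm.charpoly.coeff k := by
    intro k
    have h1 := Matrix.charpoly_map (Matrix.of fun i j : V => (G.dist i j : ℤ)) (Int.castRingHom ℝ)
    have h2 : (Matrix.of fun i j : V => (G.dist i j : ℤ)).map (Int.castRingHom ℝ)
        = Matrix.reindex e e t.Dm := by
      ext i j
      simp [RT.Dm, he]
    rw [h2, Matrix.charpoly_reindex] at h1
    rw [h1, coeff_map]
    rfl
  rw [hc] at hn hd ⊢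
  obtain ⟨nonneg, hdown⟩ := RT.upper t hn
  have hgood := RT.good t hn
  have hdP : ∀ k, k + 2 ≤ t.size → d k = t.P.coeff k := by
    intro k hk
    rw [hd, Int.cast_abs, hchar]
    have h1 := RT.coeff_rel t k
    obtain ⟨j, hj⟩ : ∃ j, t.size = k + 2 + j := ⟨t.size - (k + 2), by omega⟩
    have h2 : t.Dm.charpoly.coeff k = -(2 ^ j * t.P.coeff k) := by
      have h4 : (4 * 2 ^ k : ℝ) ≠ 0 := by positivity
      apply mul_left_cancel₀ h4
      rw [hj] at h1
      linear_combination h1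
    have := nonneg k hk
    rw [h2, abs_neg, abs_of_nonneg (by positivity), show t.size - k - 2 = j by omega]
    field_simp
  have hr : Real.sqrt 5 ^ 2 = 5 := Real.sq_sqrt (by norm_num)
  have h0 : 0 ≤ Real.sqrt 5 := Real.sqrt_nonneg 5
  have hr1 : 2 < Real.sqrt 5 := by nlinarith
  have hhalf : (1 / 2 : ℝ) ≤ 1 - 1 / Real.sqrt 5 := by
    have : 1 / Real.sqrt 5 ≤ 1 / 2 := one_div_le_one_div_of_le (by norm_num) hr1.le
    linarith
  have hm : t.size / 2 ≤ ⌈(1 - 1 / Real.sqrt 5) * (t.size : ℝ)⌉₊ := by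
    have a : ((t.size / 2 : ℕ) : ℝ) ≤ (t.size : ℝ) / 2 := Nat.cast_div_le
    have b := mul_le_mul_of_nonneg_right hhalf (by positivity : (0 : ℝ) ≤ t.size)
    have c := Nat.le_ceil ((1 - 1 / Real.sqrt 5) * (t.size : ℝ))
    have : ((t.size / 2 : ℕ) : ℝ) ≤ (⌈(1 - 1 / Real.sqrt 5) * (t.size : ℝ)⌉₊ : ℝ) := by linarith
    exact_mod_cast this
  refine peak_of_mono d (t.size - 2) _ _ (by omega) hm ?_ ?_
  · intro k hk
    rw [hdP k (by omega), hdP (k + 1) (by omega)]
    exact hgood k (by omega)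
  · intro k hk hk'
    rw [hdP k (by omega), hdP (k + 1) (by omega)]
    exact hdown k (Nat.ceil_le.1 hk) (by omega) (by omega)

end Pool.Agent.H75Z.Peak
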