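import Pool.Agent.H75Z.PeakPoly

set_option autoImplicit false
set_option maxHeartbeats 400000

namespace Pool.Agent.H75Z.Peak

open Polynomial Matrix

theorem sum_lin {n : Type} [Fintype n] (w a b : n → ℝ) (c d : ℝ) :
    ∑ v, w v * (c * a v + d * b v) = c * ∑ v, w v * a v + d * ∑ v, w v * b v := by
  rw [Finset.mul_sum, Finset.mul_sum, ← Finset.sum_add_distrib]
  exact Finset.sum_congr rfl fun v _ => by ring

theorem det_rank_one {n : Type} [Fintype n] [DecidableEq n] (M : Matrix n n ℝ) (a : n → ℝ)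
    (ha : ∀ u, ∑ v, M u v * a v = 1) :
    (M + Matrix.of (fun _ _ => (1 : ℝ))).det = M.det * (1 + ∑ v, a v) := by
  let A : Matrix n Unit ℝ := Matrix.of fun u _ => a u
  let B : Matrix Unit n ℝ := Matrix.of fun _ _ => 1
  have : M + Matrix.of (fun _ _ => (1 : ℝ)) = M * (1 + A * B) := by
    rw [Matrix.mul_add, Matrix.mul_one, ← Matrix.mul_assoc]
    congr 1
    ext u v
    simp [Matrix.mul_apply, A, B, ha]
  rw [this, det_mul, det_one_add_mul_comm]
  congr 1
  simp [Matrix.mul_apply, A, B]

theorem det_rank_two {n : Type} [Fintype n] [DecidableEq n] (M : Matrix n n ℝ) (a b h : n → ℝ)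
    (ha : ∀ u, ∑ v, M u v * a v = 1) (hb : ∀ u, ∑ v, M u v * b v = h u) :
    (Matrix.of fun u v => 2 * M u v - h u - h v).det = 2 ^ Fintype.card n * M.det *
      ((1 - (∑ v, b v) / 2) * (1 - (∑ v, h v * a v) / 2)
        - (∑ v, a v) * (∑ v, h v * b v) / 4) := by
  let A : Matrix n (Fin 2) ℝ := Matrix.of fun u i => if i = 0 then b u / 2 else a u / 2
  let B : Matrix (Fin 2) n ℝ := Matrix.of fun i v => if i = 0 then 1 else h v
  have : (Matrix.of fun u v => 2 * M u v - h u - h v) = ((2 : ℝ) • M) * (1 - A * B) := by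
    rw [Matrix.mul_sub, Matrix.mul_one, ← Matrix.mul_assoc]
    ext u v
    have e1 : ∑ x, 2 * M u x * (b x / 2) = h u := by
      rw [← hb u]; exact Finset.sum_congr rfl fun x _ => by ring
    have e2 : ∑ x, 2 * M u x * (a x / 2) = 1 := by
      rw [← ha u]; exact Finset.sum_congr rfl fun x _ => by ring
    simp only [Matrix.mul_apply, A, B, Fin.sum_univ_two, Matrix.of_apply, Matrix.sub_apply,
      Matrix.smul_apply, smul_eq_mul, if_true, if_false, one_ne_zero, e1, e2]
    ring
  rw [this, det_mul, det_one_sub_mul_comm, det_smul, det_fin_two]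
  congr 1
  simp [Matrix.mul_apply, A, B, ← Finset.sum_div, ← mul_div_assoc]
  ring

namespace RT

theorem pos_pf (t : RT) {y : ℝ} (hy : 0 ≤ y) : 0 < t.p.eval y ∧ 0 < t.f.eval y := by
  induction t with
  | dot => simp [p_dot, f_dot]
  | graft a b iha ihb =>
    obtain ⟨a1, a2⟩ := iha
    obtain ⟨b1, b2⟩ := ihb
    simp only [p_graft, f_graft, g, eval_add, eval_mul, eval_X]
    constructor <;> positivity

theorem jacobi (t : RT) : X * t.p * t.W = t.f * (t.Wh + t.S2) - t.S1 ^ 2 := by
  induction t with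
  | dot => simp [W_dot, Wh_dot, S1_dot, S2_dot]
  | graft a b iha ihb =>
    rw [W_graft, Wh_graft, S1_graft, S2_graft, p_graft, f_graft, Xc, g.eq_1 a]
    have hg : b.g = b.f + X * b.p := rfl
    generalize b.g = gb at *
    subst hg
    linear_combination (b.f + X * b.p) ^ 2 * iha + X ^ 2 * a.p ^ 2 * ihb

theorem D_symm (t : RT) (u v : t.V) : t.D u v = t.D v u := by
  induction t with
  | dot => rfl
  | graft a b iha ihb =>
    rcases u with u | u <;> rcases v with v | v
    · exact iha u v
    · rfl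
    · rfl
    · exact ihb u v

theorem D_self (t : RT) (u : t.V) : t.D u u = 0 := by
  induction t with
  | dot => rfl
  | graft a b iha ihb =>
    rcases u with u | u
    · exact iha u
    · exact ihb u

noncomputable def N (t : RT) (y : ℝ) : Matrix t.V t.V ℝ :=
  Matrix.of fun u v => ((t.h u : ℝ) + t.h v - t.D u v) / 2 + if u = v then y else 0

theorem N_diag (t : RT) (y : ℝ) (u : t.V) : t.N y u u = t.h u + y := by
  simp only [N, Matrix.of_apply, D_self, if_true]
  push_cast; ring

theorem N_off (t : RT) (y : ℝ) {u v : t.V} (huv : u ≠ v) :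
    t.N y u v = ((t.h u : ℝ) + t.h v - t.D u v) / 2 := by
  simp only [N, Matrix.of_apply, huv, if_false, add_zero]

theorem N_ll (a b : RT) (y : ℝ) (u v : a.V) :
    (graft a b).N y (Sum.inl u) (Sum.inl v) = a.N y u v := by
  by_cases huv : u = v
  · subst huv
    exact (N_diag (graft a b) y (Sum.inl u)).trans (N_diag a y u).symm
  · exact (N_off (graft a b) y (u := Sum.inl u) (v := Sum.inl v)
      (fun e => huv (Sum.inl_injective e))).trans (N_off a y huv).symm

theorem N_rr (a b : RT) (y : ℝ) (u v : b.V) :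
    (graft a b).N y (Sum.inr u) (Sum.inr v) = b.N y u v + 1 := by
  by_cases huv : u = v
  · subst huv
    refine (N_diag (graft a b) y (Sum.inr u)).trans ?_
    rw [N_diag]
    simp only [h]
    push_cast; ring
  · refine (N_off (graft a b) y (u := Sum.inr u) (v := Sum.inr v)
      (fun e => huv (Sum.inr_injective e))).trans ?_
    rw [N_off b y huv]
    simp only [h, D]
    push_cast; ring

theorem N_lr (a b : RT) (y : ℝ) (u : a.V) (v : b.V) :
    (graft a b).N y (Sum.inl u) (Sum.inr v) = 0 := by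
  refine (N_off (graft a b) y (u := Sum.inl u) (v := Sum.inr v) Sum.inl_ne_inr).trans ?_
  simp only [h, D]
  push_cast; ring

theorem N_rl (a b : RT) (y : ℝ) (u : b.V) (v : a.V) :
    (graft a b).N y (Sum.inr u) (Sum.inl v) = 0 := by
  refine (N_off (graft a b) y (u := Sum.inr u) (v := Sum.inl v) Sum.inr_ne_inl).trans ?_
  simp only [h, D]
  push_cast; ring

theorem det_N_graft (a b : RT) (y : ℝ) : ((graft a b).N y).det =
    (a.N y).det * (b.N y + Matrix.of (fun _ _ => (1 : ℝ))).det := by
  rw [← det_fromBlocks_zero₂₁ (a.N y) 0]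
  have : (graft a b).N y = (Matrix.fromBlocks (a.N y) 0 0
      (b.N y + Matrix.of (fun _ _ => (1 : ℝ))) : Matrix (a.V ⊕ b.V) (a.V ⊕ b.V) ℝ) := by
    ext u v
    rcases u with u | u <;> rcases v with v | v
    · exact N_ll a b y u v
    · exact N_lr a b y u v
    · exact N_rl a b y u v
    · exact N_rr a b y u v
  rw [this]
  rfl

theorem sol (t : RT) {y : ℝ} (hy : 0 < y) : ∃ a b : t.V → ℝ,
    (∀ u, ∑ v, t.N y u v * a v = 1) ∧ (∀ u, ∑ v, t.N y u v * b v = t.h u) ∧
    y * t.p.eval y * ∑ v, a v = t.f.eval y ∧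
    y * t.p.eval y * ∑ v, (t.h v : ℝ) * a v = t.S1.eval y ∧
    y * t.p.eval y * ∑ v, b v = t.S1.eval y ∧
    y * t.p.eval y * ∑ v, (t.h v : ℝ) * b v = (t.Wh + t.S2).eval y ∧
    (t.N y).det = y * t.p.eval y := by
  induction t with
  | dot =>
    refine ⟨fun _ => 1 / y, fun _ => 0, ?_, ?_, ?_, ?_, ?_, ?_, ?_⟩
    · intro u
      have : dot.N y u () = y := (N_diag dot y ()).trans (by simp [h])
      rw [sum_dot, this]; field_simp
    · intro u; simp [h]
    · rw [sum_dot]; simp [p_dot, f_dot]; field_simp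
    · simp [h, S1_dot]
    · simp [S1_dot]
    · simp [Wh_dot, S2_dot]
    · have : (dot.N y).det = dot.N y () () := det_unique (n := Unit) (dot.N y)
      rw [this]; simp [N, h, D, p_dot]
  | graft A B ihA ihB =>
    obtain ⟨aA, bA, A1, A2, A3, A4, A5, A6, A7⟩ := ihA
    obtain ⟨aB, bB, B1, B2, B3, B4, B5, B6, B7⟩ := ihB
    have pB := (pos_pf B hy.le).1
    have fB := (pos_pf B hy.le).2
    have J := congrArg (eval y) (jacobi B)
    simp only [eval_mul, eval_X, eval_sub, eval_pow] at J
    have hα : 0 < ∑ v, aB v := by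
      by_contra hneg
      have : y * B.p.eval y * ∑ v, aB v ≤ 0 :=
        mul_nonpos_of_nonneg_of_nonpos (by positivity) (not_lt.1 hneg)
      linarith
    have hβ : ∑ v, (B.h v : ℝ) * aB v = ∑ v, bB v :=
      mul_left_cancel₀ (by positivity : y * B.p.eval y ≠ 0) (B4.trans B5.symm)
    set α := ∑ v, aB v with hαd
    set β := ∑ v, bB v with hβd
    set γ := ∑ v, (B.h v : ℝ) * bB v with hγd
    have hg : B.g.eval y = y * B.p.eval y * (1 + α) := by
      simp only [g, eval_add, eval_mul, eval_X]; linarith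
    have hW : B.W.eval y = y * B.p.eval y * (α * γ - β ^ 2) := by
      apply mul_left_cancel₀ (by positivity : y * B.p.eval y ≠ 0)
      rw [J, ← B3, ← B5, ← B6]; ring
    have h1 : (1 + α) ≠ 0 := by positivity
    set c := (β + α) / (1 + α) with hc
    have hc' : c * (1 + α) = β + α := by rw [hc]; field_simp
    refine ⟨fun z => Sum.elim aA (fun v => aB v / (1 + α)) z,
      fun z => Sum.elim bA (fun v => bB v + (1 - c) * aB v) z, ?_, ?_, ?_, ?_, ?_, ?_, ?_⟩
    · rintro (u | u) <;> rw [sum_graft]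
      · simp [N_ll, N_lr, A1]
      · simp only [N_rl, N_rr, Sum.elim_inl, Sum.elim_inr, zero_mul, Finset.sum_const_zero,
          zero_add, ← mul_div_assoc, ← Finset.sum_div, add_mul, one_mul, Finset.sum_add_distrib,
          B1]
        field_simp
        rfl
    · rintro (u | u) <;> rw [sum_graft]
      · simp [N_ll, N_lr, A2, h]
      · have : ∑ v, (B.N y u v + 1) * (bB v + (1 - c) * aB v) =
            ∑ v, B.N y u v * bB v + (1 - c) * ∑ v, B.N y u v * aB v + β + (1 - c) * α := by
          rw [hαd, hβd, Finset.mul_sum, Finset.mul_sum, ← Finset.sum_add_distrib,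
            ← Finset.sum_add_distrib, ← Finset.sum_add_distrib]
          exact Finset.sum_congr rfl fun v _ => by ring
        simp only [N_rl, N_rr, Sum.elim_inl, Sum.elim_inr, zero_mul, Finset.sum_const_zero,
          zero_add, this, B1, B2, h]
        push_cast
        linear_combination -hc'
    · rw [sum_graft]
      simp only [Sum.elim_inl, Sum.elim_inr, ← Finset.sum_div, p_graft, f_graft, eval_add,
        eval_mul, eval_X, hg, ← hαd, ← A3, ← B3]
      field_simp
    · rw [sum_graft]
      have : ∑ v, ((B.h v + 1 : ℕ) : ℝ) * (aB v / (1 + α)) = (β + α) / (1 + α) := by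
        rw [← hβ, hαd, ← Finset.sum_add_distrib, Finset.sum_div]
        exact Finset.sum_congr rfl fun v _ => by push_cast; ring
      simp only [Sum.elim_inl, Sum.elim_inr, h, this, p_graft, S1_graft, eval_add,
        eval_mul, eval_X, hg, ← A4, ← B3, ← B5]
      field_simp
    · rw [sum_graft]
      have : ∑ v, (bB v + (1 - c) * aB v) = β + (1 - c) * α := by
        rw [Finset.sum_add_distrib, ← Finset.mul_sum]
      simp only [Sum.elim_inl, Sum.elim_inr, this, p_graft, S1_graft, eval_add,
        eval_mul, eval_X, hg, ← A5, ← B3, ← B5]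
      linear_combination (-(y * A.p.eval y * y * B.p.eval y * α)) * hc'
    · rw [sum_graft]
      have : ∑ v, ((B.h v + 1 : ℕ) : ℝ) * (bB v + (1 - c) * aB v)
          = γ + β + (1 - c) * (β + α) := by
        rw [← hβ, hαd, hγd, hβ, hβd, ← Finset.sum_add_distrib]
        conv_rhs => enter [2, 2, 1]; rw [← hβd, ← hβ]
        rw [← Finset.sum_add_distrib, Finset.mul_sum, ← Finset.sum_add_distrib]
        exact Finset.sum_congr rfl fun v _ => by push_cast; ring
      rw [eval_add] at A6 B6
      simp only [Sum.elim_inl, Sum.elim_inr, h, this, p_graft, S2_graft, Wh_graft, eval_add,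
        eval_mul, eval_X, eval_ofNat, hg, hW, ← B3, ← B5]
      linear_combination (y * B.p.eval y * (1 + α)) * A6 + (y * A.p.eval y) * B6
        - (y * A.p.eval y * y * B.p.eval y * (β + α)) * hc'
    · rw [det_N_graft, det_rank_one _ aB B1, A7, B7, p_graft, eval_mul, hg]; ring

noncomputable def Dm (t : RT) : Matrix t.V t.V ℝ := Matrix.of fun u v => (t.D u v : ℝ)

theorem matrix_facts (t : RT) {y : ℝ} (hy : 0 < y) :
    4 * t.Dm.charpoly.eval (2 * y) = -2 ^ t.size * t.P.eval y ∧
    ∃ z : t.V → ℝ, (∀ u, ∑ v, t.Dm u v * z v - 2 * y * z u = t.P.eval y) ∧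
      ∑ v, z v = 2 * t.f.eval y := by
  obtain ⟨a, b, B1, B2, B3, B4, B5, B6, B7⟩ := sol t hy
  have pB := (pos_pf t hy.le).1
  have J := congrArg (eval y) (jacobi t)
  simp only [eval_mul, eval_X, eval_sub, eval_pow] at J
  have hβ : ∑ v, (t.h v : ℝ) * a v = ∑ v, b v :=
    mul_left_cancel₀ (by positivity : y * t.p.eval y ≠ 0) (B4.trans B5.symm)
  have key := det_rank_two (t.N y) a b (fun u => t.h u) B1 B2
  have hDN : ∀ u v, t.Dm u v = t.h u + t.h v - 2 * t.N y u v + if u = v then 2 * y else 0 := by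
    intro u v
    simp only [Dm, N, Matrix.of_apply]
    split_ifs <;> ring
  have hmul : ∀ (x : t.V → ℝ) (u : t.V), ∑ v, t.Dm u v * x v - 2 * y * x u =
      t.h u * ∑ v, x v + ∑ v, (t.h v : ℝ) * x v - 2 * ∑ v, t.N y u v * x v := by
    intro x u
    simp only [hDN, add_mul, sub_mul, ite_mul, zero_mul, Finset.sum_add_distrib,
      Finset.sum_sub_distrib, Finset.sum_ite_eq, Finset.mem_univ, if_true, Finset.mul_sum,
      mul_assoc]
    ring
  set α := ∑ v, a v with hαd
  set β := ∑ v, b v with hβd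
  set γ := ∑ v, (t.h v : ℝ) * b v with hγd
  have hW : t.W.eval y = y * t.p.eval y * (α * γ - β ^ 2) := by
    apply mul_left_cancel₀ (by positivity : y * t.p.eval y ≠ 0)
    rw [J, ← B3, ← B5, ← B6]; ring
  have hP : t.P.eval y = y * t.p.eval y * (α * γ - (2 - β) ^ 2) := by
    simp only [P, eval_add, eval_sub, eval_mul, eval_X, eval_ofNat, hW, ← B5]; ring
  constructor
  · have : Matrix.scalar t.V (2 * y) - t.Dm =
        Matrix.of fun u v => 2 * t.N y u v - (t.h u : ℝ) - t.h v := by
      ext u v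
      simp only [Matrix.sub_apply, Matrix.scalar_apply, Matrix.diagonal_apply, hDN,
        Matrix.of_apply]
      ring
    rw [eval_charpoly, this, key, hβ, B7, hP, card_V]
    ring
  · refine ⟨fun v => y * t.p.eval y * (2 - β) * a v + y * t.p.eval y * α * b v, fun u => ?_, ?_⟩
    · rw [hmul]
      rw [sum_lin, sum_lin, hβ, B1, B2, Finset.sum_add_distrib, ← Finset.mul_sum,
        ← Finset.mul_sum, hP]
      ring
    · rw [Finset.sum_add_distrib, ← Finset.mul_sum, ← Finset.mul_sum, ← B3]
      ring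

end RT

end Pool.Agent.H75Z.Peak
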