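import Pool.Agent.H75Z.PeakTree
import Pool.Agent.H75Z.PeakCone

set_option autoImplicit false
set_option maxHeartbeats 400000

namespace Pool.Agent.H75Z.Peak

open Polynomial

namespace RT

noncomputable def pf : RT → ℝ[X] × ℝ[X]
  | dot => (1, 1)
  | graft a b => ((pf a).1 * ((pf b).2 + X * (pf b).1),
      (pf a).2 * ((pf b).2 + X * (pf b).1) + X * (pf a).1 * (pf b).2)

noncomputable def p (t : RT) : ℝ[X] := (pf t).1
noncomputable def f (t : RT) : ℝ[X] := (pf t).2
noncomputable def g (t : RT) : ℝ[X] := t.f + X * t.p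

theorem p_dot : dot.p = 1 := rfl
theorem f_dot : dot.f = 1 := rfl
theorem p_graft (a b : RT) : (graft a b).p = a.p * b.g := rfl
theorem f_graft (a b : RT) : (graft a b).f = a.f * b.g + X * a.p * b.f := rfl

noncomputable def ws : RT → (ℕ → ℝ[X]) → ℝ[X]
  | dot, w => w 0
  | graft a b, w => ws a w * b.g + X * a.p * ws b (fun i => w (i + 1))

theorem ws_add (t : RT) (w v : ℕ → ℝ[X]) :
    t.ws (fun i => w i + v i) = t.ws w + t.ws v := by
  induction t generalizing w v with
  | dot => rfl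
  | graft a b iha ihb => simp only [ws]; rw [iha, ihb]; ring

theorem ws_mul (t : RT) (w : ℕ → ℝ[X]) (q : ℝ[X]) :
    t.ws (fun i => w i * q) = t.ws w * q := by
  induction t generalizing w with
  | dot => rfl
  | graft a b iha ihb => simp only [ws]; rw [iha, ihb]; ring

theorem ws_mul' (t : RT) (w : ℕ → ℝ[X]) (q : ℝ[X]) :
    t.ws (fun i => q * w i) = q * t.ws w := by
  rw [mul_comm, ← ws_mul]; simp only [mul_comm]

theorem ws_zero (t : RT) : t.ws (fun _ => 0) = 0 := by
  have := ws_mul t (fun _ => 0) 0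
  simpa using this

theorem ws_one (t : RT) : t.ws (fun _ => 1) = t.f := by
  induction t with
  | dot => rfl
  | graft a b iha ihb => simp only [ws]; rw [iha, ihb, f_graft]

noncomputable def e0 (i : ℕ) : ℝ := if i = 0 then 1 else 0
noncomputable def e1 (i : ℕ) : ℝ := if i = 1 then 1 else 0
noncomputable def e2 (i : ℕ) : ℝ := if 2 ≤ i then 1 else 0

theorem ws_e0 (t : RT) : t.ws (fun i => C (e0 i)) = t.p := by
  induction t with
  | dot => simp [ws, e0, p_dot]
  | graft a b iha _ =>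
    simp only [ws]
    have : (fun i : ℕ => C (e0 (i + 1))) = fun _ => (0 : ℝ[X]) := by
      funext i; simp [e0]
    rw [iha, this, ws_zero, p_graft]; ring

noncomputable def C1 (t : RT) : ℝ[X] := t.ws (fun i => C (e1 i))
noncomputable def C2 (t : RT) : ℝ[X] := t.ws (fun i => C (e2 i))
noncomputable def S1 (t : RT) : ℝ[X] := t.ws (fun i => C (i : ℝ))
noncomputable def S2 (t : RT) : ℝ[X] := t.ws (fun i => C ((i : ℝ) ^ 2))

theorem f_eq (t : RT) : t.f = t.p + t.C1 + t.C2 := by
  rw [← ws_e0, C1, C2, ← ws_add, ← ws_add, ← ws_one]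
  congr 1
  funext i
  rcases i with _ | _ | i <;> simp [e0, e1, e2]

theorem C1_dot : dot.C1 = 0 := by simp [C1, ws, e1]
theorem C2_dot : dot.C2 = 0 := by simp [C2, ws, e2]
theorem S1_dot : dot.S1 = 0 := by simp [S1, ws]
theorem S2_dot : dot.S2 = 0 := by simp [S2, ws]

theorem C1_graft (a b : RT) : (graft a b).C1 = a.C1 * b.g + X * a.p * b.p := by
  rw [← ws_e0 b]
  simp only [C1, ws]
  congr 3
  funext i; simp [e0, e1]

theorem C2_graft (a b : RT) : (graft a b).C2 = a.C2 * b.g + X * a.p * (b.C1 + b.C2) := by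
  simp only [C1, C2, ws]
  rw [← ws_add]
  congr 3
  funext i
  rcases i with _ | _ | i <;> simp [e1, e2]

theorem S1_graft (a b : RT) : (graft a b).S1 = a.S1 * b.g + X * a.p * (b.S1 + b.f) := by
  rw [← ws_one b]
  simp only [S1, ws]
  rw [← ws_add]
  congr 3
  funext i; simp

theorem S2_graft (a b : RT) :
    (graft a b).S2 = a.S2 * b.g + X * a.p * (b.S2 + 2 * b.S1 + b.f) := by
  rw [← ws_one b]
  simp only [S1, S2, ws]
  rw [← ws_mul' b _ 2, ← ws_add, ← ws_add]
  congr 3
  funext i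
  simp only [Nat.cast_add, Nat.cast_one, map_pow, map_add, map_natCast, map_one]
  ring

theorem cone_ws (t : RT) : ∀ (M : ℤ) (w : ℕ → ℝ[X]), (∀ i : ℕ, Cone (M - i) (w i)) →
    Cone (t.size - 1 + M) (t.ws w) := by
  have hp : ∀ t : RT, (∀ (M : ℤ) (w : ℕ → ℝ[X]), (∀ i : ℕ, Cone (M - i) (w i)) →
      Cone (t.size - 1 + M) (t.ws w)) → Cone (t.size - 1) t.p ∧ Cone t.size t.g := by
    intro t ht
    have h0 : Cone (t.size - 1) t.p := by
      have := ht 0 (fun i => C (e0 i)) (fun i => cone_C (by unfold e0; split_ifs <;> norm_num)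
        (by omega))
      rw [ws_e0] at this
      simpa using this
    refine ⟨h0, ?_⟩
    have h1 : Cone (t.size - 1 + 1) (t.C1 + t.C2) := by
      have := ht 1 (fun i => C (e1 i) + C (e2 i)) (fun i => by
        rcases i with _ | i
        · simpa [e1, e2] using Cone.zero
        · rw [← C_add]
          exact cone_C (by unfold e1 e2; split_ifs <;> norm_num) (by push_cast; omega))
      rwa [ws_add] at this
    have : t.g = (1 + X) * t.p + (t.C1 + t.C2) := by rw [g, f_eq]; ring
    rw [this]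
    exact (cone_one_add_X.mul' h0 (by omega)).add (h1.mono (by omega))
  induction t with
  | dot => intro M w hw; simpa [ws, size] using hw 0
  | graft a b iha ihb =>
    intro M w hw
    simp only [ws, size]
    refine ((iha M w hw).mul' (hp b ihb).2 (by push_cast; omega)).add ?_
    refine (cone_X.mul (hp a iha).1).mul' (ihb (M - 1) _ (fun i => ?_)) (by push_cast; omega)
    exact (hw (i + 1)).mono (by push_cast; omega)

theorem cone_wsC (t : RT) (k : ℕ) (w : ℕ → ℝ) (h0 : ∀ i, 0 ≤ w i) (h1 : ∀ i < k, w i = 0) :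
    Cone (t.size - 1 + k) (t.ws (fun i => C (w i))) := by
  apply cone_ws
  intro i
  by_cases hi : i < k
  · rw [h1 i hi, C_0]; exact Cone.zero
  · exact cone_C (h0 i) (by omega)

theorem cone_p (t : RT) : Cone (t.size - 1) t.p := by
  have := cone_wsC t 0 e0 (fun i => by unfold e0; split_ifs <;> norm_num) (by simp)
  rw [ws_e0] at this
  simpa using this

theorem cone_C1 (t : RT) : Cone t.size t.C1 :=
  (cone_wsC t 1 e1 (fun i => by unfold e1; split_ifs <;> norm_num)
    (fun i hi => by unfold e1; rw [if_neg (by omega)])).mono (by push_cast; omega)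

theorem cone_C2 (t : RT) : Cone (t.size + 1) t.C2 :=
  (cone_wsC t 2 e2 (fun i => by unfold e2; split_ifs <;> norm_num)
    (fun i hi => by unfold e2; rw [if_neg (by omega)])).mono (by push_cast; omega)

theorem cone_S1 (t : RT) : Cone t.size t.S1 :=
  (cone_wsC t 1 (fun i => (i : ℝ)) (fun i => by positivity)
    (fun i hi => by simp [show i = 0 by omega])).mono (by push_cast; omega)

theorem cone_S2 (t : RT) : Cone t.size t.S2 :=
  (cone_wsC t 1 (fun i => (i : ℝ) ^ 2) (fun i => by positivity)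
    (fun i hi => by simp [show i = 0 by omega])).mono (by push_cast; omega)

theorem cone_f (t : RT) : Cone (t.size - 1) t.f := by
  rw [f_eq]
  exact ((cone_p t).add ((cone_C1 t).mono (by omega))).add ((cone_C2 t).mono (by omega))

theorem cone_g (t : RT) : Cone t.size t.g := by
  have : t.g = (1 + X) * t.p + t.C1 + t.C2 := by rw [g, f_eq]; ring
  rw [this]
  exact ((cone_one_add_X.mul' (cone_p t) (by omega)).add (cone_C1 t)).add
    ((cone_C2 t).mono (by omega))

/-- The cross term. -/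
noncomputable def Xc (a b : RT) : ℝ[X] :=
  a.S2 * b.f + a.f * (b.S2 + 2 * b.S1 + b.f) - 2 * a.S1 * (b.S1 + b.f)

noncomputable def om (i j : ℕ) : ℝ :=
  ((i : ℝ) - j - 1) ^ 2 - (e0 i * e0 j + e2 i * e0 j + e0 i * (e1 j + 2 * e2 j)
    + e1 i * (e1 j + e2 j))

theorem om_nonneg (i j : ℕ) : 0 ≤ om i j := by
  have a0 : ∀ k : ℕ, e0 (k + 1) = 0 := fun k => by simp [e0]
  have a1 : ∀ k : ℕ, e1 (k + 1 + 1) = 0 := fun k => by simp [e1]
  have a2 : ∀ k : ℕ, e2 (k + 1 + 1) = 1 := fun k => by simp [e2]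
  have b0 : e0 0 = 1 := by simp [e0]
  have b1 : e1 0 = 0 := by simp [e1]
  have b2 : e2 0 = 0 := by simp [e2]
  have c1 : e1 (0 + 1) = 1 := by simp [e1]
  have c2 : e2 (0 + 1) = 0 := by simp [e2]
  rcases i with _ | _ | i <;> rcases j with _ | _ | j <;>
    simp only [om, a0, a1, a2, b0, b1, b2, c1, c2] <;> push_cast
  · norm_num
  · norm_num
  · nlinarith [(by positivity : (0 : ℝ) ≤ (j : ℝ))]
  · norm_num
  · norm_num
  · nlinarith [(by positivity : (0 : ℝ) ≤ (j : ℝ))]
  · nlinarith [(by positivity : (0 : ℝ) ≤ (i : ℝ))]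
  · nlinarith [(by positivity : (0 : ℝ) ≤ (i : ℝ))]
  · nlinarith [sq_nonneg ((i : ℝ) - j - 1)]

noncomputable def rest (a b : RT) : ℝ[X] := a.ws (fun i => b.ws (fun j => C (om i j)))

theorem cone_rest (a b : RT) : Cone (a.size + b.size - 1) (rest a b) := by
  refine (cone_ws a (b.size - 1 + 1) _ (fun i => ?_)).mono (by omega)
  refine (cone_ws b (1 - i) _ (fun j => ?_)).mono (by omega)
  by_cases h : i = 0 ∧ j = 0
  · obtain ⟨rfl, rfl⟩ := h
    simpa [om, e0, e1, e2] using Cone.zero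
  · exact cone_C (om_nonneg i j) (by omega)

theorem Xc_eq (a b : RT) : Xc a b = a.p * b.p + a.C2 * b.p + a.p * (b.C1 + 2 * b.C2)
    + a.C1 * (b.C1 + b.C2) + rest a b := by
  have h1 : ∀ i : ℕ, b.ws (fun j => C (om i j)) =
      C ((i : ℝ) ^ 2) * b.f + 1 * (b.S2 + 2 * b.S1 + b.f) + C (i : ℝ) * (-2 * (b.S1 + b.f))
        + C (e0 i) * (-(b.p + b.C1 + 2 * b.C2)) + C (e2 i) * (-b.p)
        + C (e1 i) * (-(b.C1 + b.C2)) := by
    intro i
    have : (fun j : ℕ => C (om i j)) = fun j : ℕ =>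
        (C ((i : ℝ) ^ 2) + 1 - 2 * C (i : ℝ)) * (1 : ℝ[X]) + (1 : ℝ[X]) * C ((j : ℝ) ^ 2)
          + (2 - 2 * C (i : ℝ)) * C (j : ℝ) + (-C (e0 i) - C (e2 i)) * C (e0 j)
          + (-C (e0 i) - C (e1 i)) * C (e1 j) + (-2 * C (e0 i) - C (e1 i)) * C (e2 j) := by
      funext j
      simp only [om, map_sub, map_add, map_mul, map_pow, map_one, map_ofNat]
      ring
    rw [this]
    simp only [ws_add, ws_mul']
    rw [ws_one, ws_e0]
    simp only [← S1.eq_1, ← S2.eq_1, ← C1.eq_1, ← C2.eq_1]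
    ring
  rw [rest]
  simp only [h1, ws_add, ws_mul]
  rw [ws_one, ws_e0]
  simp only [← S1.eq_1, ← S2.eq_1, ← C1.eq_1, ← C2.eq_1, Xc]
  ring

noncomputable def ww : RT → ℝ[X] × ℝ[X]
  | dot => (0, 0)
  | graft a b => ((ww a).1 * b.g + (ww a).2 * b.f + (ww b).1 * a.g + (ww b).2 * a.f + Xc a b,
      (ww a).2 * b.g + X * a.p * ((ww b).1 + (ww b).2))

noncomputable def W (t : RT) : ℝ[X] := (ww t).1
noncomputable def Wh (t : RT) : ℝ[X] := (ww t).2

theorem W_dot : dot.W = 0 := rfl
theorem Wh_dot : dot.Wh = 0 := rfl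
theorem W_graft (a b : RT) :
    (graft a b).W = a.W * b.g + a.Wh * b.f + b.W * a.g + b.Wh * a.f + Xc a b := rfl
theorem Wh_graft (a b : RT) :
    (graft a b).Wh = a.Wh * b.g + X * a.p * (b.W + b.Wh) := rfl

theorem cone_two : Cone 0 (2 : ℝ[X]) := by
  have := cone_C (c := 2) (by norm_num) (le_refl (0 : ℤ))
  exact this

theorem cone_W (t : RT) : Cone (t.size - 2) t.W ∧ Cone (t.size - 1) (t.W + (t.C1 + t.C2)) ∧
    Cone (t.size - 1) t.Wh ∧ Cone t.size (t.Wh + t.C2) := by
  induction t with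
  | dot => simp only [W_dot, Wh_dot, C1_dot, C2_dot, add_zero]; exact ⟨.zero, .zero, .zero, .zero⟩
  | graft a b iha ihb =>
    obtain ⟨a1, a2, a3, a4⟩ := iha
    obtain ⟨b1, b2, b3, b4⟩ := ihb
    have pa := cone_p a
    have pb := cone_p b
    have fa := cone_f a
    have fb := cone_f b
    have ga := cone_g a
    have gb := cone_g b
    have c1a := cone_C1 a
    have c1b := cone_C1 b
    have c2a := cone_C2 a
    have c2b := cone_C2 b
    have rb : Cone b.size (b.C1 + b.C2) := c1b.add (c2b.mono (by omega))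
    have ra : Cone a.size (a.C1 + a.C2) := c1a.add (c2a.mono (by omega))
    have hr := cone_rest a b
    simp only [size]
    refine ⟨?_, ?_, ?_, ?_⟩
    · rw [W_graft, Xc_eq]
      refine ((((a1.mul' gb ?_).add (a3.mul' fb ?_)).add (b1.mul' ga ?_)).add
        (b3.mul' fa ?_)).add (((((pa.mul' pb ?_).add (c2a.mul' pb ?_)).add
        (pa.mul' (c1b.add (cone_two.mul' c2b ?_)) ?_)).add (c1a.mul' rb ?_)).add (hr.mono ?_))
      all_goals (push_cast; omega)
    · have : (graft a b).W + ((graft a b).C1 + (graft a b).C2) =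
          (a.W + (a.C1 + a.C2)) * b.g + (a.Wh + a.C2) * b.p + a.Wh * (b.C1 + b.C2)
          + (1 + X) * a.p * (b.W + (b.C1 + b.C2)) + a.C1 * (b.W + (b.C1 + b.C2)) + b.W * a.C2
          + a.p * (b.Wh + b.C2) + b.Wh * (a.C1 + a.C2) + (1 + X) * a.p * b.p + rest a b := by
        rw [W_graft, C1_graft, C2_graft, Xc_eq, g.eq_1 a, f_eq a, f_eq b]; ring
      rw [this]
      refine (((((((((a2.mul' gb ?_).add (a4.mul' pb ?_)).add (a3.mul' rb ?_)).add
        ((cone_one_add_X.mul pa).mul' b2 ?_)).add (c1a.mul' b2 ?_)).add (b1.mul' c2a ?_)).add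
        (pa.mul' b4 ?_)).add (b3.mul' ra ?_)).add ((cone_one_add_X.mul pa).mul' pb ?_)).add
        (hr.mono ?_)
      all_goals (push_cast; omega)
    · rw [Wh_graft]
      refine (a3.mul' gb ?_).add ((cone_X.mul pa).mul' (b1.add (b3.mono ?_)) ?_)
      all_goals (push_cast; omega)
    · have : (graft a b).Wh + (graft a b).C2 = (a.Wh + a.C2) * b.g
          + X * a.p * (b.W + (b.C1 + b.C2)) + X * a.p * b.Wh := by
        rw [Wh_graft, C2_graft]; ring
      rw [this]
      refine ((a4.mul' gb ?_).add ((cone_X.mul pa).mul' b2 ?_)).add ((cone_X.mul pa).mul' b3 ?_)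
      all_goals (push_cast; omega)

/-- The normalised characteristic polynomial of the distance matrix. -/
noncomputable def P (t : RT) : ℝ[X] := t.W + 4 * t.S1 - 4 * X * t.p

end RT

end Pool.Agent.H75Z.Peak
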