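import Mathlib

set_option autoImplicit false
set_option maxHeartbeats 400000

namespace Pool.Agent.H75Z.Peak

/-- Rooted trees built by grafting: `graft a b` joins the root of `b` to the root of `a`. -/
inductive RT : Type
  | dot : RT
  | graft : RT → RT → RT

namespace RT

def V : RT → Type
  | dot => Unit
  | graft a b => a.V ⊕ b.V

instance instFintypeV : (t : RT) → Fintype t.V
  | dot => inferInstanceAs (Fintype Unit)
  | graft a b => @instFintypeSum a.V b.V (instFintypeV a) (instFintypeV b)

instance instDecEqV : (t : RT) → DecidableEq t.V
  | dot => inferInstanceAs (DecidableEq Unit)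
  | graft a b => @instDecidableEqSum a.V b.V (instDecEqV a) (instDecEqV b)

def size : RT → ℕ
  | dot => 1
  | graft a b => a.size + b.size

def root : (t : RT) → t.V
  | dot => ()
  | graft a _ => Sum.inl a.root

def h : (t : RT) → t.V → ℕ
  | dot, _ => 0
  | graft a _, Sum.inl x => a.h x
  | graft _ b, Sum.inr y => b.h y + 1

def D : (t : RT) → t.V → t.V → ℕ
  | dot, _, _ => 0
  | graft a _, Sum.inl x, Sum.inl x' => a.D x x'
  | graft a b, Sum.inl x, Sum.inr y => a.h x + b.h y + 1
  | graft a b, Sum.inr y, Sum.inl x => a.h x + b.h y + 1
  | graft _ b, Sum.inr y, Sum.inr y' => b.D y y'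

theorem sum_graft {M : Type} [AddCommMonoid M] (a b : RT) (f : (graft a b).V → M) :
    ∑ x, f x = ∑ x : a.V, f (Sum.inl x) + ∑ y : b.V, f (Sum.inr y) :=
  Fintype.sum_sum_type (α₁ := a.V) (α₂ := b.V) f

theorem sum_dot {M : Type} [AddCommMonoid M] (f : dot.V → M) : ∑ x, f x = f () :=
  Fintype.sum_unique (ι := Unit) f

theorem card_V (t : RT) : Fintype.card t.V = t.size := by
  induction t with
  | dot => rfl
  | graft a b iha ihb =>
    have : Fintype.card (graft a b).V = Fintype.card a.V + Fintype.card b.V :=
      Fintype.card_sum (α := a.V) (β := b.V)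
    rw [this, iha, ihb]; rfl

theorem size_pos (t : RT) : 1 ≤ t.size := by
  induction t with
  | dot => exact le_rfl
  | graft a b iha _ => simp only [size]; omega

end RT

open SimpleGraph

variable {W : Type} {G : SimpleGraph W}

theorem path_length_eq_dist (hG : G.IsTree) {u v : W} (p : G.Walk u v) (hp : p.IsPath) :
    p.length = G.dist u v := by
  obtain ⟨q, hq, hq'⟩ := hG.connected.exists_path_of_dist u v
  have := (hG.existsUnique_path u v).unique hp hq
  rw [this, hq']

theorem dist_add_of_mem_support [DecidableEq W] (hG : G.IsTree) {u v z : W} (p : G.Walk u v)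
    (hp : p.length = G.dist u v) (hz : z ∈ p.support) :
    G.dist u z + G.dist z v = G.dist u v := by
  have h1 := dist_le (p.takeUntil z hz)
  have h2 := dist_le (p.dropUntil z hz)
  have h3 : (p.takeUntil z hz).length + (p.dropUntil z hz).length = p.length := by
    rw [← Walk.length_append, Walk.take_spec]
  have h4 := hG.connected.dist_triangle (u := u) (v := z) (w := v)
  omega

theorem cross_dist [DecidableEq W] (hG : G.IsTree) {r a x y : W} (hra : G.Adj r a)
    (hx : G.dist x a = G.dist x r + 1) (hy : G.dist y r = G.dist y a + 1) :
    G.dist x y = G.dist x r + G.dist a y + 1 := by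
  obtain ⟨p, hp, hp'⟩ := hG.connected.exists_path_of_dist x r
  obtain ⟨q, hq, hq'⟩ := hG.connected.exists_path_of_dist a y
  have hpath : (p.append (Walk.cons hra q)).IsPath := by
    rw [Walk.isPath_def, Walk.support_append, List.nodup_append]
    refine ⟨hp.support_nodup, ?_, ?_⟩
    · simpa using hq.support_nodup
    · intro z hz z' hz' hzz
      subst hzz
      have hz'' : z ∈ q.support := by simpa using hz'
      have e1 := dist_add_of_mem_support hG p hp' hz
      have e2 := dist_add_of_mem_support hG q hq' hz''
      have t1 := hG.connected.dist_triangle (u := x) (v := z) (w := a)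
      have t2 := hG.connected.dist_triangle (u := y) (v := z) (w := r)
      have c1 : G.dist z a = G.dist a z := dist_comm
      have c2 : G.dist z y = G.dist y z := dist_comm
      have c3 : G.dist a y = G.dist y a := dist_comm
      omega
  have := path_length_eq_dist hG _ hpath
  rw [Walk.length_append, Walk.length_cons] at this
  omega

theorem conv_aux [DecidableEq W] (hG : G.IsTree) : ∀ (n : ℕ) (S : Finset W) (r : W), S.card = n →
    r ∈ S → (∀ x ∈ S, ∀ y, G.dist r y + G.dist y x = G.dist r x → y ∈ S) →
    ∃ (t : RT) (e : t.V → W), Function.Injective e ∧ (∀ x, x ∈ S ↔ ∃ u, e u = x) ∧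
      (∀ u, t.h u = G.dist r (e u)) ∧ ∀ u v, t.D u v = G.dist (e u) (e v) := by
  intro n
  induction n using Nat.strong_induction_on with
  | _ n ih =>
    intro S r hS hr hcl
    by_cases hall : ∀ x ∈ S, x = r
    · refine ⟨RT.dot, fun _ => r, fun _ _ _ => rfl, ?_, ?_, ?_⟩
      · intro x
        constructor
        · intro hx; exact ⟨(), (hall x hx).symm⟩
        · rintro ⟨_, rfl⟩; exact hr
      · intro u; simp [RT.h]
      · intro u v; simp [RT.D]
    · push Not at hall
      obtain ⟨x0, hx0, hne⟩ := hall
      obtain ⟨p, hp, hp'⟩ := hG.connected.exists_path_of_dist r x0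
      cases p with
      | nil => exact absurd rfl hne
      | @cons _ a _ hra q =>
        have hd1 : G.dist r a = 1 := dist_eq_one_iff_adj.2 hra
        have hd1' : G.dist a r = 1 := dist_eq_one_iff_adj.2 hra.symm
        have haS : a ∈ S := by
          apply hcl x0 hx0
          exact dist_add_of_mem_support hG _ hp' (by simp)
        have dich : ∀ z, G.dist z r = G.dist z a + 1 ∨ G.dist z a = G.dist z r + 1 :=
          fun z => hG.dist_eq_dist_add_one_of_adj z hra
        set A := S.filter (fun z => G.dist z a = G.dist z r + 1) with hA
        set B := S.filter (fun z => G.dist z r = G.dist z a + 1) with hB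
        have hrA : r ∈ A := by simp [hA, hr, hd1]
        have haB : a ∈ B := by simp [hB, haS, hd1']
        have hAlt : A.card < n := by
          rw [← hS]
          apply Finset.card_lt_card
          refine ⟨Finset.filter_subset _ _, fun hsub => ?_⟩
          have := hsub haS
          simp [hA, hd1'] at this
        have hBlt : B.card < n := by
          rw [← hS]
          apply Finset.card_lt_card
          refine ⟨Finset.filter_subset _ _, fun hsub => ?_⟩
          have := hsub hr
          simp [hB, hd1] at this
        obtain ⟨ta, ea, ia, sa, ha, da⟩ := ih _ hAlt A r rfl hrA (by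
          intro x hx y hy
          simp only [hA, Finset.mem_filter] at hx ⊢
          refine ⟨hcl x hx.1 y hy, ?_⟩
          have t1 := hG.connected.dist_triangle (u := x) (v := y) (w := a)
          have c1 : G.dist r y = G.dist y r := dist_comm
          have c2 : G.dist y x = G.dist x y := dist_comm
          have c3 : G.dist r x = G.dist x r := dist_comm
          have := dich y
          omega)
        obtain ⟨tb, eb, ib, sb, hb, db⟩ := ih _ hBlt B a rfl haB (by
          intro x hx y hy
          simp only [hB, Finset.mem_filter] at hx ⊢
          have t1 := hG.connected.dist_triangle (u := r) (v := y) (w := x)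
          have c1 : G.dist r y = G.dist y r := dist_comm
          have c2 : G.dist a y = G.dist y a := dist_comm
          have c3 : G.dist r x = G.dist x r := dist_comm
          have c4 : G.dist a x = G.dist x a := dist_comm
          have := dich y
          refine ⟨hcl x hx.1 y (by omega), by omega⟩)
        have mA : ∀ u, G.dist (ea u) a = G.dist (ea u) r + 1 := fun u => by
          have := (sa (ea u)).2 ⟨u, rfl⟩
          simp only [hA, Finset.mem_filter] at this
          exact this.2
        have mB : ∀ u, G.dist (eb u) r = G.dist (eb u) a + 1 := fun u => by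
          have := (sb (eb u)).2 ⟨u, rfl⟩
          simp only [hB, Finset.mem_filter] at this
          exact this.2
        have hcross : ∀ u v, G.dist (ea u) (eb v) = ta.h u + tb.h v + 1 := fun u v => by
          rw [cross_dist hG hra (mA u) (mB v), ha, hb, dist_comm]
        refine ⟨RT.graft ta tb, fun z => Sum.elim ea eb z, ?_, ?_, ?_, ?_⟩
        · rintro (u | u) (v | v) huv
          · exact congrArg Sum.inl (ia huv)
          · have h1 := mA u
            have h2 := mB v
            have : ea u = eb v := huv
            rw [this] at h1; omega
          · have h1 := mA v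
            have h2 := mB u
            have : eb u = ea v := huv
            rw [this] at h2; omega
          · exact congrArg Sum.inr (ib huv)
        · intro x
          constructor
          · intro hx
            rcases dich x with h1 | h1
            · obtain ⟨u, hu⟩ := (sb x).1 (by simp [hB, hx, h1])
              exact ⟨Sum.inr u, hu⟩
            · obtain ⟨u, hu⟩ := (sa x).1 (by simp [hA, hx, h1])
              exact ⟨Sum.inl u, hu⟩
          · rintro ⟨u | u, rfl⟩
            · exact Finset.mem_of_mem_filter _ ((sa _).2 ⟨u, rfl⟩)
            · exact Finset.mem_of_mem_filter _ ((sb _).2 ⟨u, rfl⟩)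
        · rintro (u | u)
          · exact ha u
          · show tb.h u + 1 = G.dist r (eb u)
            rw [hb, dist_comm (u := r), mB, dist_comm]
        · rintro (u | u) (v | v)
          · exact da u v
          · exact (hcross u v).symm
          · show ta.h v + tb.h u + 1 = G.dist (eb u) (ea v)
            rw [dist_comm]; exact (hcross v u).symm
          · exact db u v

theorem conv [Fintype W] [DecidableEq W] (hG : G.IsTree) :
    ∃ (t : RT) (e : t.V ≃ W), ∀ u v, t.D u v = G.dist (e u) (e v) := by
  obtain ⟨r⟩ := hG.connected.nonempty
  obtain ⟨t, e, he, hs, -, hd⟩ := conv_aux hG _ Finset.univ r rfl (Finset.mem_univ _)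
    (fun _ _ _ _ => Finset.mem_univ _)
  exact ⟨t, Equiv.ofBijective e ⟨he, fun x => (hs x).1 (Finset.mem_univ _)⟩, hd⟩

end Pool.Agent.H75Z.Peak
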